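import Mathlib

/-! # Continuous cohomology of the maximal pro-`p` Galois group, Massey products, symbol length -/

set_option autoImplicit false

namespace Pool.Agent.Helper14.Massey

universe u v

open Topology

section ProP

variable (p : ℕ) (G : Type u) [Group G] [TopologicalSpace G]

/-- The open normal subgroups of `p`-power index of a topological group. -/
def POpen : Set (Subgroup G) :=
  {N | N.Normal ∧ IsOpen (N : Set G) ∧ ∃ k : ℕ, N.index = p ^ k}

/-- The intersection of the open normal subgroups of `p`-power index. For a profinite group this is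
the kernel of the projection to the maximal pro-`p` quotient. -/
def proPKer : Subgroup G := sInf (POpen p G)

instance proPKer_normal : (proPKer p G).Normal := by
  constructor
  intro n hn g
  rw [proPKer, Subgroup.mem_sInf] at hn ⊢
  intro N hN
  have := hN.1
  exact this.conj_mem n (hn N hN) g

/-- The maximal pro-`p` quotient of a profinite group `G`, with the quotient topology. -/
abbrev MaxProP : Type u := G ⧸ proPKer p G

end ProP

/-- The maximal pro-`p` quotient of the absolute Galois group of `F` (reducible form of `GalP`). -/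
abbrev GalQ (p : ℕ) (F : Type u) [Field F] : Type u := MaxProP p (Gal(SeparableClosure F/F))

/-- The maximal pro-`p` Galois group `G_F(p)` of a field `F`: the maximal pro-`p` quotient of the
absolute Galois group of `F`. -/
def GalP (p : ℕ) (F : Type u) [Field F] : Type u := MaxProP p (Gal(SeparableClosure F/F))

noncomputable instance GalP.group (p : ℕ) (F : Type u) [Field F] : Group (GalP p F) :=
  QuotientGroup.Quotient.group (proPKer p Gal(SeparableClosure F/F))

noncomputable instance GalP.topologicalSpace (p : ℕ) (F : Type u) [Field F] :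
    TopologicalSpace (GalP p F) :=
  QuotientGroup.instTopologicalSpace (proPKer p Gal(SeparableClosure F/F))

section Cohomology

variable (p : ℕ) (H : Type u) [Group H] [TopologicalSpace H]

/-- The group `H¹(H, ℤ/p)` for the trivial action: the continuous homomorphisms from `H` to the
discrete group `ℤ/p`. -/
def H1 : AddSubgroup (H → ZMod p) where
  carrier := {f | Continuous f ∧ ∀ σ τ, f (σ * τ) = f σ + f τ}
  add_mem' := by
    rintro f g ⟨hf, hf'⟩ ⟨hg, hg'⟩
    refine ⟨hf.add hg, fun σ τ => ?_⟩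
    simp only [Pi.add_apply, hf', hg']
    ring
  zero_mem' := ⟨continuous_const, fun σ τ => by simp⟩
  neg_mem' := by
    rintro f ⟨hf, hf'⟩
    refine ⟨hf.neg, fun σ τ => ?_⟩
    simp only [Pi.neg_apply, hf']
    ring

/-- The continuous inhomogeneous 2-cocycles of `H` with values in the trivial module `ℤ/p`. -/
def Z2 : AddSubgroup (H → H → ZMod p) where
  carrier := {f | Continuous (fun x : H × H => f x.1 x.2) ∧
    ∀ σ τ υ, f τ υ - f (σ * τ) υ + f σ (τ * υ) - f σ τ = 0}
  add_mem' := by
    rintro f g ⟨hf, hf'⟩ ⟨hg, hg'⟩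
    refine ⟨hf.add hg, fun σ τ υ => ?_⟩
    simp only [Pi.add_apply]
    linear_combination hf' σ τ υ + hg' σ τ υ
  zero_mem' := ⟨continuous_const, fun σ τ υ => by simp⟩
  neg_mem' := by
    rintro f ⟨hf, hf'⟩
    refine ⟨hf.neg, fun σ τ υ => ?_⟩
    simp only [Pi.neg_apply]
    linear_combination - hf' σ τ υ

variable {p H}

/-- The coboundary of an inhomogeneous 1-cochain with values in the trivial module `ℤ/p`. -/
def d1 (a : H → ZMod p) : H → H → ZMod p := fun σ τ => a σ + a τ - a (σ * τ)

/-- The cup product of two 1-cochains. -/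
def cup (a b : H → ZMod p) : H → H → ZMod p := fun σ τ => a σ * b τ

variable (p H)

/-- The continuous inhomogeneous 2-coboundaries of `H` with values in `ℤ/p`. -/
def B2 : AddSubgroup (H → H → ZMod p) where
  carrier := {f | ∃ a : H → ZMod p, Continuous a ∧ f = d1 a}
  add_mem' := by
    rintro _ _ ⟨a, ha, rfl⟩ ⟨b, hb, rfl⟩
    refine ⟨a + b, ha.add hb, ?_⟩
    funext σ τ
    simp only [Pi.add_apply, d1]
    ring
  zero_mem' := ⟨0, continuous_const, by funext σ τ; simp [d1]⟩
  neg_mem' := by
    rintro _ ⟨a, ha, rfl⟩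
    refine ⟨-a, ha.neg, ?_⟩
    funext σ τ
    simp only [Pi.neg_apply, d1]
    ring

/-- The group `H²(H, ℤ/p)` for the trivial action: continuous 2-cocycles modulo 2-coboundaries of
continuous 1-cochains. -/
abbrev H2 : Type u := Z2 p H ⧸ (B2 p H).addSubgroupOf (Z2 p H)

variable {p H}

/-- The class in `H²(H, ℤ/p)` of a 2-cocycle. -/
def cls (f : H → H → ZMod p) (hf : f ∈ Z2 p H) : H2 p H :=
  QuotientAddGroup.mk (⟨f, hf⟩ : Z2 p H)

theorem cup_mem_Z2 (a b : H1 p H) : cup (a : H → ZMod p) (b : H → ZMod p) ∈ Z2 p H := by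
  obtain ⟨a, ha, ha'⟩ := a
  obtain ⟨b, hb, hb'⟩ := b
  refine ⟨(ha.comp continuous_fst).mul (hb.comp continuous_snd), fun σ τ υ => ?_⟩
  simp only [cup, ha', hb']
  ring

/-- The cup product `H¹(H, ℤ/p) × H¹(H, ℤ/p) → H²(H, ℤ/p)`. -/
def cupH (a b : H1 p H) : H2 p H := cls (cup (a : H → ZMod p) (b : H → ZMod p)) (cup_mem_Z2 a b)

/-- The symbol length of a class in `H²(H, ℤ/p)`: the least `m` such that the class is a sum of `m`
cup products of classes in `H¹(H, ℤ/p)`; it is `⊤` if there is no such `m`. -/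
noncomputable def symbolLength (α : H2 p H) : ℕ∞ :=
  ⨅ (m : ℕ) (_ : ∃ a b : Fin m → H1 p H, α = ∑ i, cupH (a i) (b i)), (m : ℕ∞)

/-- A defining system for the Massey product of `φ 0, …, φ (n - 1)`, where the indices
`1, …, n + 1` are written `0, …, n`: continuous cochains `a i j` for `i < j` and
`(i, j) ≠ (0, n)` (the other values of `a` are not used) such that `a i (i + 1)` is `φ i` and the
coboundary of `a i j` is the sum of the `a i k ∪ a k j` over `i < k < j`. -/
structure DefiningSystem {n : ℕ} (φ : Fin n → H1 p H) where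
  /-- the cochains -/
  a : Fin (n + 1) → Fin (n + 1) → H → ZMod p
  continuous : ∀ i j, i < j → (i, j) ≠ (0, Fin.last n) → Continuous (a i j)
  diag : ∀ i : Fin n, a i.castSucc i.succ = φ i
  rel : ∀ i j, i < j → (i, j) ≠ (0, Fin.last n) →
    d1 (a i j) = ∑ k ∈ Finset.Ioo i j, cup (a i k) (a k j)

/-- The value of a defining system: the cochain which is the sum of the `a 0 k ∪ a k n` over
`0 < k < n`. -/
def DefiningSystem.value {n : ℕ} {φ : Fin n → H1 p H} (D : DefiningSystem φ) : H → H → ZMod p :=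
  ∑ k ∈ Finset.Ioo 0 (Fin.last n), cup (D.a 0 k) (D.a k (Fin.last n))

omit [TopologicalSpace H] in
theorem d1_sub_sum_cup {n : ℕ} (a : Fin (n + 1) → Fin (n + 1) → H → ZMod p) (i j : Fin (n + 1))
    (h1 : ∀ k ∈ Finset.Ioo i j, d1 (a i k) = ∑ l ∈ Finset.Ioo i k, cup (a i l) (a l k))
    (h2 : ∀ k ∈ Finset.Ioo i j, d1 (a k j) = ∑ l ∈ Finset.Ioo k j, cup (a k l) (a l j))
    (σ τ υ : H) :
    (∑ k ∈ Finset.Ioo i j, cup (a i k) (a k j)) τ υ
      - (∑ k ∈ Finset.Ioo i j, cup (a i k) (a k j)) (σ * τ) υ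
      + (∑ k ∈ Finset.Ioo i j, cup (a i k) (a k j)) σ (τ * υ)
      - (∑ k ∈ Finset.Ioo i j, cup (a i k) (a k j)) σ τ = 0 := by
  have e1 : ∀ k ∈ Finset.Ioo i j, a i k (σ * τ) =
      a i k σ + a i k τ - ∑ l ∈ Finset.Ioo i k, a i l σ * a l k τ := by
    intro k hk
    have := congrFun (congrFun (h1 k hk) σ) τ
    simp only [d1, Finset.sum_apply, cup] at this
    linear_combination - this
  have e2 : ∀ k ∈ Finset.Ioo i j, a k j (τ * υ) =
      a k j τ + a k j υ - ∑ l ∈ Finset.Ioo k j, a k l τ * a l j υ := by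
    intro k hk
    have := congrFun (congrFun (h2 k hk) τ) υ
    simp only [d1, Finset.sum_apply, cup] at this
    linear_combination - this
  simp only [Finset.sum_apply, cup]
  have e3 : ∑ k ∈ Finset.Ioo i j, a i k (σ * τ) * a k j υ =
      ∑ k ∈ Finset.Ioo i j, (a i k σ * a k j υ + a i k τ * a k j υ)
      - ∑ k ∈ Finset.Ioo i j, ∑ l ∈ Finset.Ioo i k, a i l σ * a l k τ * a k j υ := by
    rw [← Finset.sum_sub_distrib]
    refine Finset.sum_congr rfl fun k hk => ?_
    rw [e1 k hk, ← Finset.sum_mul]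
    ring
  have e4 : ∑ k ∈ Finset.Ioo i j, a i k σ * a k j (τ * υ) =
      ∑ k ∈ Finset.Ioo i j, (a i k σ * a k j τ + a i k σ * a k j υ)
      - ∑ k ∈ Finset.Ioo i j, ∑ l ∈ Finset.Ioo k j, a i k σ * a k l τ * a l j υ := by
    rw [← Finset.sum_sub_distrib]
    refine Finset.sum_congr rfl fun k hk => ?_
    have : ∑ l ∈ Finset.Ioo k j, a i k σ * a k l τ * a l j υ =
        a i k σ * ∑ l ∈ Finset.Ioo k j, a k l τ * a l j υ := by
      rw [Finset.mul_sum]
      exact Finset.sum_congr rfl fun l _ => by ring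
    rw [e2 k hk, this]
    ring
  have e5 : ∑ k ∈ Finset.Ioo i j, ∑ l ∈ Finset.Ioo i k, a i l σ * a l k τ * a k j υ =
      ∑ k ∈ Finset.Ioo i j, ∑ l ∈ Finset.Ioo k j, a i k σ * a k l τ * a l j υ := by
    refine Finset.sum_comm' ?_
    intro x y
    simp only [Finset.mem_Ioo]
    constructor
    · rintro ⟨⟨_, h2⟩, h3, h4⟩
      exact ⟨⟨h4, h2⟩, h3, h4.trans h2⟩
    · rintro ⟨⟨h1, h2⟩, h3, h4⟩
      exact ⟨⟨h3.trans h1, h2⟩, h3, h1⟩
  rw [e3, e4, e5, Finset.sum_add_distrib, Finset.sum_add_distrib]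
  ring

theorem DefiningSystem.value_mem_Z2 {n : ℕ} {φ : Fin n → H1 p H} (D : DefiningSystem φ) :
    D.value ∈ Z2 p H := by
  have hne : ∀ k ∈ Finset.Ioo (0 : Fin (n + 1)) (Fin.last n),
      ((0 : Fin (n + 1)), k) ≠ (0, Fin.last n) ∧ (k, Fin.last n) ≠ (0, Fin.last n) := by
    intro k hk
    rw [Finset.mem_Ioo] at hk
    constructor
    · intro h
      rw [Prod.mk.injEq] at h
      exact hk.2.ne h.2
    · intro h
      rw [Prod.mk.injEq] at h
      exact hk.1.ne' h.1
  refine ⟨?_, fun σ τ υ => ?_⟩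
  · have h : (fun x : H × H => D.value x.1 x.2) = fun x : H × H =>
        ∑ k ∈ Finset.Ioo 0 (Fin.last n), D.a 0 k x.1 * D.a k (Fin.last n) x.2 := by
      funext x
      simp only [DefiningSystem.value, Finset.sum_apply, cup]
    rw [h]
    refine continuous_finsetSum _ fun k hk => ?_
    have hk' := Finset.mem_Ioo.mp hk
    exact ((D.continuous _ _ hk'.1 (hne k hk).1).comp continuous_fst).mul
      ((D.continuous _ _ hk'.2 (hne k hk).2).comp continuous_snd)
  · apply d1_sub_sum_cup D.a
    · intro k hk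
      exact D.rel _ _ (Finset.mem_Ioo.mp hk).1 (hne k hk).1
    · intro k hk
      exact D.rel _ _ (Finset.mem_Ioo.mp hk).2 (hne k hk).2

/-- The Massey product of `φ 0, …, φ (n - 1)`: the set of the classes of the values of all defining
systems. -/
def masseyProduct {n : ℕ} (φ : Fin n → H1 p H) : Set (H2 p H) :=
  {α | ∃ D : DefiningSystem φ, α = cls D.value D.value_mem_Z2}

end Cohomology

end Pool.Agent.Helper14.Massey
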