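import Mathlib

/-! # Ultraproducts of fields -/

set_option autoImplicit false

namespace Pool.Agent.Helper14.Massey

universe u v

open Filter Polynomial

section Filter

variable {ι : Type} (U : Ultrafilter ι)

theorem exists_eventually_eq {X : Type v} [Finite X] (f : ι → X) : ∃ x, ∀ᶠ i in (U : Filter ι), f i = x := by
  obtain ⟨x, hx⟩ := Ultrafilter.eq_pure_of_finite (U.map f)
  refine ⟨x, ?_⟩
  have : {x} ∈ U.map f := by rw [hx]; simp
  exact Ultrafilter.mem_map.mp this

theorem exists_eventually_eq_of_lt (f : ι → ℕ) (B : ℕ) (h : ∀ᶠ i in (U : Filter ι), f i < B) :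
    ∃ x < B, ∀ᶠ i in (U : Filter ι), f i = x := by
  classical
  rcases Nat.eq_zero_or_pos B with rfl | hB
  · obtain ⟨i, hi⟩ := h.exists
    exact absurd hi (by omega)
  have : NeZero B := ⟨hB.ne'⟩
  obtain ⟨x, hx⟩ := exists_eventually_eq U (fun i => (if h : f i < B then ⟨f i, h⟩ else 0 : Fin B))
  refine ⟨x, x.2, ?_⟩
  filter_upwards [h, hx] with i h1 h2
  rw [dif_pos h1] at h2
  rw [← h2]

theorem eventually_forall_of_forall {X : ι → Type v} (P : ∀ i, X i → Prop)
    (hX : ∀ i, Nonempty (X i))
    (h : ∀ x : (∀ i, X i), ∀ᶠ i in (U : Filter ι), P i (x i)) :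
    ∀ᶠ i in (U : Filter ι), ∀ x, P i x := by
  classical
  by_contra hcon
  rw [← Ultrafilter.eventually_not] at hcon
  have h1 : ∀ i, ∃ x : X i, (¬ ∀ y, P i y) → ¬ P i x := by
    intro i
    by_cases h2 : ∀ y, P i y
    · exact ⟨(hX i).some, fun h3 => absurd h2 h3⟩
    · push Not at h2
      obtain ⟨y, hy⟩ := h2
      exact ⟨y, fun _ => hy⟩
  choose x hx using h1
  have h4 := h x
  obtain ⟨i, h5, h6⟩ := (hcon.and h4).exists
  exact hx i h5 h6

end Filter

variable {ι : Type} (U : Ultrafilter ι) (k : ι → Type u) [∀ i, Field (k i)]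

/-- The maximal ideal of a product of fields defined by an ultrafilter. -/
def upIdeal : Ideal (∀ i, k i) where
  carrier := {x | ∀ᶠ i in (U : Filter ι), x i = 0}
  add_mem' := by
    intro x y hx hy
    filter_upwards [hx, hy] with i h1 h2
    simp [h1, h2]
  zero_mem' := by simp
  smul_mem' := by
    intro c x hx
    filter_upwards [hx] with i h1
    simp [h1]

theorem mem_upIdeal (x : ∀ i, k i) : x ∈ upIdeal U k ↔ ∀ᶠ i in (U : Filter ι), x i = 0 := Iff.rfl

instance upIdeal_isMaximal : (upIdeal U k).IsMaximal := by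
  rw [Ideal.isMaximal_iff]
  constructor
  · rw [mem_upIdeal]
    intro h
    obtain ⟨i, hi⟩ := h.exists
    simp at hi
  · intro J x hJ hx hxJ
    have h1 : (fun i => (x i)⁻¹) * x ∈ J := J.mul_mem_left _ hxJ
    have h2 : (1 : ∀ i, k i) - (fun i => (x i)⁻¹) * x ∈ upIdeal U k := by
      rw [mem_upIdeal]
      rw [mem_upIdeal, ← Ultrafilter.eventually_not] at hx
      filter_upwards [hx] with i hi
      simp [inv_mul_cancel₀ hi]
    have h3 := J.add_mem (hJ h2) h1
    simpa using h3

/-- The ultraproduct of a family of fields. -/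
def UP : Type u := (∀ i, k i) ⧸ upIdeal U k

noncomputable instance : Field (UP U k) := Ideal.Quotient.field (upIdeal U k)

variable {k}

/-- the projection of the product to the ultraproduct -/
noncomputable def mk : (∀ i, k i) →+* UP U k := Ideal.Quotient.mk (upIdeal U k)

theorem mk_surjective : Function.Surjective (mk U : (∀ i, k i) →+* UP U k) :=
  Ideal.Quotient.mk_surjective

theorem mk_eq_mk {x y : ∀ i, k i} : mk U x = mk U y ↔ ∀ᶠ i in (U : Filter ι), x i = y i := by
  have h : mk U x = mk U y ↔ x - y ∈ upIdeal U k := Ideal.Quotient.eq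
  rw [h, mem_upIdeal]
  simp [sub_eq_zero]

theorem mk_eq_zero {x : ∀ i, k i} : mk U x = 0 ↔ ∀ᶠ i in (U : Filter ι), x i = 0 := by
  have := mk_eq_mk U (x := x) (y := 0)
  simpa using this

variable {l : ι → Type u} [∀ i, Field (l i)]

/-- functoriality of the ultraproduct -/
noncomputable def UP.map (h : ∀ i, k i →+* l i) : UP U k →+* UP U l :=
  Ideal.Quotient.lift (upIdeal U k)
    ((mk U).comp (RingHom.pi fun i => (h i).comp (Pi.evalRingHom k i))) (by
      intro x hx
      rw [RingHom.comp_apply, mk_eq_zero]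
      rw [mem_upIdeal] at hx
      filter_upwards [hx] with i hi
      change h i (x i) = 0
      rw [hi, map_zero])

theorem UP.map_mk (h : ∀ i, k i →+* l i) (x : ∀ i, k i) :
    UP.map U h (mk U x) = mk U fun i => h i (x i) := rfl

/-! ### Polynomials -/

/-- a component of a polynomial over a product -/
noncomputable def cpt (i : ι) (f : (∀ i, k i)[X]) : (k i)[X] := f.map (Pi.evalRingHom k i)

theorem cpt_coeff (i : ι) (f : (∀ i, k i)[X]) (n : ℕ) : (cpt i f).coeff n = f.coeff n i := by
  simp [cpt]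

theorem map_mk_eq_zero {f : (∀ i, k i)[X]} :
    f.map (mk U) = 0 ↔ ∀ᶠ i in (U : Filter ι), cpt i f = 0 := by
  constructor
  · intro h
    have h1 : ∀ n ∈ f.support, ∀ᶠ i in (U : Filter ι), f.coeff n i = 0 := by
      intro n _
      rw [← mk_eq_zero U (x := f.coeff n), ← coeff_map, h, coeff_zero]
    rw [← Filter.eventually_all_finset] at h1
    filter_upwards [h1] with i hi
    ext n
    rw [cpt_coeff, coeff_zero]
    by_cases hn : n ∈ f.support
    · exact hi n hn
    · rw [notMem_support_iff.mp hn]; rfl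
  · intro h
    ext n
    rw [coeff_map, coeff_zero, mk_eq_zero]
    filter_upwards [h] with i hi
    rw [← cpt_coeff, hi, coeff_zero]

theorem map_mk_eq {f g : (∀ i, k i)[X]} :
    f.map (mk U) = g.map (mk U) ↔ ∀ᶠ i in (U : Filter ι), cpt i f = cpt i g := by
  have h := map_mk_eq_zero U (f := f - g)
  simp only [Polynomial.map_sub, cpt, sub_eq_zero] at h
  exact h

theorem eval₂_mk (h : ∀ i, k i →+* l i) (f : (∀ i, k i)[X]) (t : ∀ i, l i) :
    eval₂ (UP.map U h) (mk U t) (f.map (mk U)) = mk U fun i => eval₂ (h i) (t i) (cpt i f) := by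
  rw [eval₂_map]
  have h1 : (UP.map U h).comp (mk U) =
      (mk U).comp (RingHom.pi fun i => (h i).comp (Pi.evalRingHom k i)) := by
    ext x; rfl
  rw [h1, ← hom_eval₂]
  congr 1
  funext i
  have h2 := hom_eval₂ f (RingHom.pi fun i => (h i).comp (Pi.evalRingHom k i))
    (Pi.evalRingHom l i) t
  have h3 : (Pi.evalRingHom l i) (eval₂ (RingHom.pi fun i => (h i).comp (Pi.evalRingHom k i)) t f)
    = eval₂ (RingHom.pi fun i => (h i).comp (Pi.evalRingHom k i)) t f i := rfl
  rw [← h3, h2, cpt, eval₂_map]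
  rfl

theorem exists_lift_monic (f : (UP U k)[X]) (hf : f.Monic) :
    ∃ g : (∀ i, k i)[X], g.map (mk U) = f ∧ g.natDegree = f.natDegree ∧ g.Monic := by
  apply lifts_and_natDegree_eq_and_monic _ hf
  rw [lifts_iff_coeff_lifts]
  intro n
  exact mk_surjective U _

theorem exists_lift (f : (UP U k)[X]) : ∃ g : (∀ i, k i)[X], g.map (mk U) = f :=
  Polynomial.map_surjective (mk U) (mk_surjective U) f

theorem cpt_natDegree {g : (∀ i, k i)[X]} (hg : g.Monic) (i : ι) :
    (cpt i g).natDegree = g.natDegree := hg.natDegree_map _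

theorem cpt_monic {g : (∀ i, k i)[X]} (hg : g.Monic) (i : ι) : (cpt i g).Monic := hg.map _

theorem cpt_separable {g : (∀ i, k i)[X]} (hg : (g.map (mk U)).Separable) :
    ∀ᶠ i in (U : Filter ι), (cpt i g).Separable := by
  obtain ⟨a, b, hab⟩ := hg
  obtain ⟨A, rfl⟩ := exists_lift U a
  obtain ⟨B, rfl⟩ := exists_lift U b
  have h : (A * g + B * derivative g - 1).map (mk U) = 0 := by
    rw [Polynomial.map_sub, Polynomial.map_add, Polynomial.map_mul, Polynomial.map_mul,
      ← derivative_map, hab, Polynomial.map_one, sub_self]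
  rw [map_mk_eq_zero] at h
  filter_upwards [h] with i hi
  refine ⟨cpt i A, cpt i B, ?_⟩
  have h2 : cpt i A * cpt i g + cpt i B * derivative (cpt i g) - 1 = 0 := by
    rw [← hi]
    simp [cpt, derivative_map]
  exact sub_eq_zero.mp h2

/-- an ultraproduct of separably closed fields is separably closed -/
instance UP.isSepClosed [∀ i, IsSepClosed (k i)] : IsSepClosed (UP U k) := by
  apply IsSepClosed.of_exists_root
  intro f hf hirr hsep
  obtain ⟨g, rfl, hdeg, hg⟩ := exists_lift_monic U f hf
  have h1 := cpt_separable U hsep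
  have hpos : 0 < g.natDegree := by
    rw [hdeg]; exact hirr.natDegree_pos
  have h2 : ∀ i, ∃ x : k i, (cpt i g).Separable → (cpt i g).eval x = 0 := by
    intro i
    by_cases hs : (cpt i g).Separable
    · obtain ⟨x, hx⟩ := IsSepClosed.exists_root (cpt i g) (by
        rw [degree_eq_natDegree (cpt_monic hg i).ne_zero, cpt_natDegree hg]
        exact_mod_cast hpos.ne') hs
      exact ⟨x, fun _ => hx⟩
    · exact ⟨0, fun h => absurd h hs⟩
  choose x hx using h2
  refine ⟨mk U x, ?_⟩
  have h3 := eval₂_mk U (fun i => RingHom.id (k i)) g x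
  have h4 : UP.map U (fun i => RingHom.id (k i)) = RingHom.id (UP U k) := by
    ext y
    obtain ⟨y, rfl⟩ := mk_surjective U y
    rfl
  rw [h4, ← eval] at h3
  rw [h3, mk_eq_zero]
  filter_upwards [h1] with i hi
  exact hx i hi

end Pool.Agent.Helper14.Massey
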