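import Mathlib
import Pool.Agent.Helper14.Massey.Ultra

/-! # Galois groups of ultraproducts of fields -/

set_option autoImplicit false

namespace Pool.Agent.Helper14.Massey

universe u v

open Filter Polynomial Topology

variable {ι : Type} (U : Ultrafilter ι) {F Ω : ι → Type u} [∀ i, Field (F i)] [∀ i, Field (Ω i)]
  [∀ i, Algebra (F i) (Ω i)]

noncomputable instance (priority := 10) UP.algebra : Algebra (UP U F) (UP U Ω) :=
  (UP.map U fun i => algebraMap (F i) (Ω i)).toAlgebra

theorem UP.algebraMap_def :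
    algebraMap (UP U F) (UP U Ω) = UP.map U fun i => algebraMap (F i) (Ω i) := rfl

/-- the action of a family of automorphisms on the ultraproduct -/
noncomputable def actHom : (∀ i, Gal(Ω i/F i)) →* Gal(UP U Ω/UP U F) where
  toFun g :=
    { toFun := UP.map U fun i => (g i : Ω i →+* Ω i)
      invFun := UP.map U fun i => ((g i).symm : Ω i →+* Ω i)
      left_inv := by
        intro x
        obtain ⟨x, rfl⟩ := mk_surjective U x
        rw [UP.map_mk, UP.map_mk]
        congr 1
        funext i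
        simp
      right_inv := by
        intro x
        obtain ⟨x, rfl⟩ := mk_surjective U x
        rw [UP.map_mk, UP.map_mk]
        congr 1
        funext i
        simp
      map_mul' := map_mul _
      map_add' := map_add _
      commutes' := by
        intro x
        obtain ⟨x, rfl⟩ := mk_surjective U x
        rw [UP.algebraMap_def, UP.map_mk]
        rw [UP.map_mk]
        congr 1
        funext i
        simp }
  map_one' := by
    ext x
    obtain ⟨x, rfl⟩ := mk_surjective U x
    rfl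
  map_mul' := by
    intro g h
    ext x
    obtain ⟨x, rfl⟩ := mk_surjective U x
    rfl

theorem actHom_mk (g : ∀ i, Gal(Ω i/F i)) (x : ∀ i, Ω i) :
    actHom U g (mk U x) = mk U fun i => g i (x i) := rfl

variable (L : Type u) [Field L] [Algebra (UP U F) L] [Algebra L (UP U Ω)]
  [IsScalarTower (UP U F) L (UP U Ω)] [IsSepClosure (UP U F) L]

/-- the canonical homomorphism from the product of the Galois groups to the Galois group of the
ultraproduct -/
noncomputable def rH : (∀ i, Gal(Ω i/F i)) →* Gal(L/UP U F) :=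
  (AlgEquiv.restrictNormalHom L).comp (actHom U)

theorem rH_spec (g : ∀ i, Gal(Ω i/F i)) (x : L) :
    algebraMap L (UP U Ω) (rH U L g x) = actHom U g (algebraMap L (UP U Ω) x) :=
  AlgEquiv.restrictNormal_commutes (actHom U g) L x

/-- a polynomial over a product with given components of bounded degree -/
noncomputable def ofCpt (q : ∀ i, (F i)[X]) (e : ℕ) : (∀ i, F i)[X] :=
  ∑ n ∈ Finset.range (e + 1), monomial n (fun i => (q i).coeff n)

theorem ofCpt_coeff (q : ∀ i, (F i)[X]) (e n : ℕ) (i : ι) :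
    (ofCpt q e).coeff n i = if n ≤ e then (q i).coeff n else 0 := by
  rw [ofCpt, finsetSum_coeff]
  simp only [coeff_monomial]
  rw [Finset.sum_ite_eq' (Finset.range (e + 1)) n]
  simp only [Finset.mem_range, Nat.lt_succ_iff]
  split_ifs <;> rfl

theorem cpt_ofCpt (q : ∀ i, (F i)[X]) (e : ℕ) (i : ι) (h : (q i).natDegree ≤ e) :
    cpt i (ofCpt q e) = q i := by
  ext n
  rw [cpt_coeff, ofCpt_coeff]
  split_ifs with h1
  · rfl
  · rw [coeff_eq_zero_of_natDegree_lt (by omega)]

theorem natDegree_ofCpt_le (q : ∀ i, (F i)[X]) (e : ℕ) : (ofCpt q e).natDegree ≤ e := by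
  rw [natDegree_le_iff_coeff_eq_zero]
  intro n hn
  funext i
  rw [ofCpt_coeff, if_neg (by omega)]
  rfl

variable [∀ i, IsSepClosure (F i) (Ω i)]

theorem exists_rH_eq (θ : L) (σ : Gal(L/UP U F)) :
    ∃ g : ∀ i, Gal(Ω i/F i), rH U L g θ = σ θ := by
  classical
  obtain ⟨t, ht⟩ := mk_surjective U (algebraMap L (UP U Ω) θ)
  obtain ⟨s, hs⟩ := mk_surjective U (algebraMap L (UP U Ω) (σ θ))
  have hint : IsIntegral (UP U F) θ := Algebra.IsIntegral.isIntegral θ
  obtain ⟨G, hG, hdeg, hGm⟩ := exists_lift_monic U (minpoly (UP U F) θ) (minpoly.monic hint)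
  have hroot : ∀ (x : L) (y : ∀ i, Ω i) (Q : (∀ i, F i)[X]), mk U y = algebraMap L (UP U Ω) x →
      (aeval x (Q.map (mk U)) = 0 ↔
        ∀ᶠ i in (U : Filter ι), eval₂ (algebraMap (F i) (Ω i)) (y i) (cpt i Q) = 0) := by
    intro x y Q hxy
    rw [← mk_eq_zero, ← eval₂_mk U (fun i => algebraMap (F i) (Ω i)), ← UP.algebraMap_def, hxy,
      ← aeval_def, aeval_algebraMap_apply,
      map_eq_zero_iff _ (algebraMap L (UP U Ω)).injective]
  have ht1 := (hroot θ t G ht).mp (by rw [hG]; exact minpoly.aeval _ _)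
  have hs1 := (hroot (σ θ) s G hs).mp (by
    rw [hG, ← minpoly.algEquiv_eq σ θ]; exact minpoly.aeval _ _)
  set q : ∀ i, (F i)[X] := fun i => minpoly (F i) (t i) with hq
  have hti : ∀ i, IsIntegral (F i) (t i) := fun i => Algebra.IsIntegral.isIntegral _
  have hd : ∀ᶠ i in (U : Filter ι), G.natDegree ≤ (q i).natDegree := by
    by_contra hcon
    rw [← Ultrafilter.eventually_not] at hcon
    simp only [not_le] at hcon
    obtain ⟨e, he, he1⟩ := exists_eventually_eq_of_lt U _ _ hcon
    have h1 : aeval θ ((ofCpt q e).map (mk U)) = 0 := by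
      rw [hroot θ t _ ht]
      filter_upwards [he1] with i hi
      rw [cpt_ofCpt q e i hi.le]
      exact minpoly.aeval _ _
    have h2 : (ofCpt q e).map (mk U) ≠ 0 := by
      intro h3
      rw [map_mk_eq_zero] at h3
      obtain ⟨i, h4, h5⟩ := (he1.and h3).exists
      rw [cpt_ofCpt q e i h4.le] at h5
      exact minpoly.ne_zero (hti i) h5
    have h3 := natDegree_le_natDegree (minpoly.degree_le_of_ne_zero (UP U F) θ h2 h1)
    have h4 : ((ofCpt q e).map (mk U)).natDegree ≤ e :=
      (natDegree_map_le).trans (natDegree_ofCpt_le q e)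
    omega
  have hex : ∀ i, ∃ g : Gal(Ω i/F i), (G.natDegree ≤ (q i).natDegree ∧
      eval₂ (algebraMap (F i) (Ω i)) (t i) (cpt i G) = 0 ∧
      eval₂ (algebraMap (F i) (Ω i)) (s i) (cpt i G) = 0) → g (t i) = s i := by
    intro i
    by_cases hc : (G.natDegree ≤ (q i).natDegree ∧
      eval₂ (algebraMap (F i) (Ω i)) (t i) (cpt i G) = 0 ∧
      eval₂ (algebraMap (F i) (Ω i)) (s i) (cpt i G) = 0)
    · obtain ⟨h1, h2, h3⟩ := hc
      have h4 : q i ∣ cpt i G := minpoly.dvd _ _ h2
      have h5 : cpt i G = q i := by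
        apply Polynomial.eq_of_monic_of_dvd_of_natDegree_le (minpoly.monic (hti i))
          (cpt_monic hGm i) h4
        rw [cpt_natDegree hGm]
        exact h1
      have h6 : aeval (s i) (q i) = 0 := by rw [← h5]; exact h3
      have h7 : minpoly (F i) (s i) = minpoly (F i) (t i) :=
        (minpoly.eq_of_irreducible_of_monic (minpoly.irreducible (hti i)) h6
          (minpoly.monic (hti i))).symm
      rw [Normal.minpoly_eq_iff_mem_orbit] at h7
      obtain ⟨g, hg⟩ := h7
      exact ⟨g, fun _ => hg⟩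
    · exact ⟨1, fun h => absurd h hc⟩
  choose g hg using hex
  refine ⟨g, ?_⟩
  apply (algebraMap L (UP U Ω)).injective
  rw [rH_spec, ← ht, ← hs, actHom_mk, mk_eq_mk]
  filter_upwards [hd, ht1, hs1] with i h1 h2 h3
  exact hg i ⟨h1, h2, h3⟩

theorem exists_rH_eqOn (E : IntermediateField (UP U F) L) [FiniteDimensional (UP U F) E]
    (σ : Gal(L/UP U F)) : ∃ g : ∀ i, Gal(Ω i/F i), ∀ x ∈ E, rH U L g x = σ x := by
  have : IsGalois (UP U F) L := inferInstance
  have : Algebra.IsSeparable (UP U F) E := inferInstance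
  let pb := Field.powerBasisOfFiniteOfSeparable (UP U F) E
  obtain ⟨g, hg⟩ := exists_rH_eq U (F := F) (Ω := Ω) L (pb.gen : L) σ
  refine ⟨g, fun x hx => ?_⟩
  have h : ((rH U L g : L →ₐ[UP U F] L).comp E.val) = ((σ : L →ₐ[UP U F] L).comp E.val) := by
    apply pb.algHom_ext
    exact hg
  exact DFunLike.congr_fun h ⟨x, hx⟩

theorem denseRange_rH : DenseRange (rH U L : (∀ i, Gal(Ω i/F i)) → Gal(L/UP U F)) := by
  rw [DenseRange, dense_iff_inter_open]
  rintro V hV ⟨σ, hσ⟩
  have h1 : {x : Gal(L/UP U F) | σ * x ∈ V} ∈ 𝓝 (1 : Gal(L/UP U F)) := by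
    have h2 : Continuous fun x : Gal(L/UP U F) => σ * x := continuous_const.mul continuous_id
    exact (hV.preimage h2).mem_nhds (by simpa using hσ)
  rw [krullTopology_mem_nhds_one_iff] at h1
  obtain ⟨E, hE, hEV⟩ := h1
  obtain ⟨g, hg⟩ := exists_rH_eqOn U (F := F) (Ω := Ω) L E σ
  refine ⟨rH U L g, ?_, ⟨g, rfl⟩⟩
  have h3 : σ⁻¹ * rH U L g ∈ E.fixingSubgroup := by
    rw [IntermediateField.mem_fixingSubgroup_iff]
    intro x hx
    rw [AlgEquiv.mul_apply, hg x hx]
    exact σ.symm_apply_apply x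
  have h4 := hEV h3
  simpa using h4

end Pool.Agent.Helper14.Massey
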