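import Mathlib
import Pool.Agent.Helper14.Massey.Gal

/-! # Transfer of locally constant functions on Galois groups along an ultraproduct -/

set_option autoImplicit false

namespace Pool.Agent.Helper14.Massey

universe u v

open Filter Polynomial Topology

/-- On a compact group a locally constant function is invariant under translations by the elements
of a neighbourhood of `1`. -/
theorem exists_nhds_invariant {G : Type u} [Group G] [TopologicalSpace G] [IsTopologicalGroup G]
    [CompactSpace G] {X : Type v} {Φ : G → X} (hΦ : IsLocallyConstant Φ) :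
    ∃ V ∈ 𝓝 (1 : G), ∀ σ, ∀ τ ∈ V, Φ (σ * τ) = Φ σ := by
  let n : Set (G × G) := {x | Φ (x.1 * x.2) = Φ x.1}
  have hn : IsOpen n := by
    have h1 : IsLocallyConstant fun x : G × G => (Φ (x.1 * x.2), Φ x.1) :=
      (hΦ.comp_continuous (continuous_fst.mul continuous_snd)).prodMk
        (hΦ.comp_continuous continuous_fst)
    exact h1 {y : X × X | y.1 = y.2}
  obtain ⟨A, V, hA, hV, hA1, hV1, hAV⟩ := generalized_tube_lemma (isCompact_univ (X := G))
    (isCompact_singleton (x := (1 : G))) hn (by
      rintro ⟨x, y⟩ ⟨_, hy⟩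
      simp only [Set.mem_singleton_iff] at hy
      simp [n, hy])
  refine ⟨V, hV.mem_nhds (hV1 rfl), fun σ τ hτ => ?_⟩
  exact hAV (Set.mk_mem_prod (hA1 (Set.mem_univ σ)) hτ)

theorem isLocallyConstant_apply {K E : Type u} [Field K] [Field E] [Algebra K E]
    [Algebra.IsIntegral K E] (x : E) {X : Type v} (ψ : E → X) :
    IsLocallyConstant fun g : Gal(E/K) => ψ (g x) := by
  rw [IsLocallyConstant.iff_exists_open]
  intro g
  refine ⟨{h | g⁻¹ * h ∈ MulAction.stabilizer Gal(E/K) x}, ?_, ?_, ?_⟩
  · have h1 : Continuous fun h : Gal(E/K) => g⁻¹ * h := continuous_const.mul continuous_id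
    exact (stabilizer_isOpen_of_isIntegral x).preimage h1
  · simp
  · intro h hh
    have h2 : (g⁻¹ * h) x = x := hh
    have h3 : h x = g x := by
      have := congrArg g h2
      rw [← AlgEquiv.mul_apply] at this
      simpa using this
    simp only [h3]

variable {ι : Type} (U : Ultrafilter ι) {F Ω : ι → Type u} [∀ i, Field (F i)] [∀ i, Field (Ω i)]
  [∀ i, Algebra (F i) (Ω i)]
variable (L : Type u) [Field L] [Algebra (UP U F) L] [Algebra L (UP U Ω)]
  [IsScalarTower (UP U F) L (UP U Ω)] [IsSepClosure (UP U F) L]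
variable [∀ i, IsSepClosure (F i) (Ω i)]

theorem mem_range_of_bounded (η : ∀ i, Ω i) (e : ℕ)
    (hη : ∀ᶠ i in (U : Filter ι), (minpoly (F i) (η i)).natDegree = e) :
    ∃ y : L, algebraMap L (UP U Ω) y = mk U η := by
  classical
  have hint : ∀ i, IsIntegral (F i) (η i) := fun i => Algebra.IsIntegral.isIntegral _
  set q : ∀ i, (F i)[X] := fun i => minpoly (F i) (η i) with hq
  -- enumerate the roots
  have hroots : ∀ i, ∃ ρ : Fin e → Ω i, (q i).natDegree = e →
      Function.Injective ρ ∧ (q i).map (algebraMap (F i) (Ω i)) = ∏ j, (X - C (ρ j)) := by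
    intro i
    by_cases hi : (q i).natDegree = e
    · have hsp : ((q i).map (algebraMap (F i) (Ω i))).Splits := Normal.splits inferInstance _
      have hsep : (q i).Separable := Algebra.IsSeparable.isSeparable (F i) (η i)
      have hsep' : ((q i).map (algebraMap (F i) (Ω i))).Separable := hsep.map
      have hmon : ((q i).map (algebraMap (F i) (Ω i))).Monic := (minpoly.monic (hint i)).map _
      set P := (q i).map (algebraMap (F i) (Ω i)) with hP
      have hnd : P.roots.Nodup := nodup_roots hsep'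
      have hcard : P.roots.toFinset.card = e := by
        rw [Multiset.toFinset_card_of_nodup hnd, ← hsp.natDegree_eq_card_roots, hP, natDegree_map,
          hi]
      let f := (Finset.equivFinOfCardEq hcard).symm
      refine ⟨fun j => (f j : Ω i), fun _ => ⟨?_, ?_⟩⟩
      · intro a b hab
        exact f.injective (Subtype.ext hab)
      · have h1 : P = (P.roots.map fun a => X - C a).prod := by
          have := hsp.eq_prod_roots
          rw [hmon.leadingCoeff, C_1, one_mul] at this
          exact this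
        have h2 : (P.roots.map fun a => X - C a).prod = ∏ a ∈ P.roots.toFinset, (X - C a) := by
          rw [Finset.prod_eq_multiset_prod, Multiset.toFinset_val, Multiset.dedup_eq_self.mpr hnd]
        refine (h1.trans h2).trans ?_
        rw [← Finset.prod_coe_sort]
        exact (Equiv.prod_comp f (fun a : P.roots.toFinset => (X - C (a : Ω i)))).symm
    · exact ⟨fun _ => 0, fun h => absurd h hi⟩
  choose ρ hρ using hroots
  set Q := ofCpt q e with hQ
  -- the image of `Q` over the big field
  have hprod : ((Q.map (mk U)).map (algebraMap (UP U F) (UP U Ω))) =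
      ∏ j : Fin e, (X - C (mk U fun i => ρ i j)) := by
    have h1 : (Q.map (mk U)).map (algebraMap (UP U F) (UP U Ω)) =
        (Q.map (RingHom.pi fun i => (algebraMap (F i) (Ω i)).comp (Pi.evalRingHom F i))).map
          (mk U) := by
      rw [Polynomial.map_map, Polynomial.map_map]
      rfl
    have h2 : ∏ j : Fin e, (X - C (mk U fun i => ρ i j)) =
        (∏ j : Fin e, (X - C (fun i => ρ i j))).map (mk U) := by
      rw [Polynomial.map_prod]
      simp
    rw [h1, h2, map_mk_eq]
    filter_upwards [hη] with i hi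
    have h3 : cpt i (Q.map (RingHom.pi fun i => (algebraMap (F i) (Ω i)).comp
        (Pi.evalRingHom F i))) = (cpt i Q).map (algebraMap (F i) (Ω i)) := by
      rw [cpt, cpt, Polynomial.map_map, Polynomial.map_map]
      rfl
    rw [h3, hQ, cpt_ofCpt q e i hi.le, (hρ i hi).2, cpt, Polynomial.map_prod]
    simp
  have hinj : Function.Injective fun j : Fin e => mk U fun i => ρ i j := by
    intro a b hab
    have hab' : mk U (fun i => ρ i a) = mk U fun i => ρ i b := hab
    rw [mk_eq_mk] at hab'
    obtain ⟨i, h1, h2⟩ := (hab'.and hη).exists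
    exact (hρ i h2).1 h1
  have hsep : (Q.map (mk U)).Separable := by
    rw [← Polynomial.separable_map (algebraMap (UP U F) (UP U Ω)), hprod]
    exact separable_prod_X_sub_C_iff.mpr hinj
  have hroot : eval₂ (algebraMap (UP U F) (UP U Ω)) (mk U η) (Q.map (mk U)) = 0 := by
    rw [UP.algebraMap_def, eval₂_mk, mk_eq_zero]
    filter_upwards [hη] with i hi
    rw [hQ, cpt_ofCpt q e i hi.le]
    exact minpoly.aeval _ _
  have hsc : IsSepClosed L := IsSepClosure.sep_closed (UP U F)
  have hspl : ((Q.map (mk U)).map (algebraMap (UP U F) L)).Splits :=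
    IsSepClosed.splits_codomain _ hsep
  have hne : (Q.map (mk U)).map (algebraMap (UP U F) L) ≠ 0 := by
    rw [Ne, Polynomial.map_eq_zero]
    exact hsep.ne_zero
  have := hspl.mem_range_of_isRoot hne (i := algebraMap L (UP U Ω)) (x := mk U η) (by
    rw [IsRoot, Polynomial.map_map, ← IsScalarTower.algebraMap_eq, eval_map, hroot])
  exact this

/-- transfer from the factors to the ultraproduct -/
theorem up_transfer {X : Type v} [Finite X] (φ : ∀ i, Gal(Ω i/F i) → X) (B : ℕ) (η : ∀ i, Ω i)
    (hB : ∀ᶠ i in (U : Filter ι), (minpoly (F i) (η i)).natDegree < B)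
    (hη : ∀ᶠ i in (U : Filter ι), ∀ g h : Gal(Ω i/F i), g (η i) = h (η i) → φ i g = φ i h) :
    ∃ Φ : Gal(L/UP U F) → X, IsLocallyConstant Φ ∧
      ∀ g : ∀ i, Gal(Ω i/F i), ∀ᶠ i in (U : Filter ι), φ i (g i) = Φ (rH U L g) := by
  classical
  obtain ⟨e, he, he1⟩ := exists_eventually_eq_of_lt U _ _ hB
  obtain ⟨y, hy⟩ := mem_range_of_bounded U L η e he1
  -- limits
  have hlim : ∀ g : ∀ i, Gal(Ω i/F i), ∃ x, ∀ᶠ i in (U : Filter ι), φ i (g i) = x :=
    fun g => exists_eventually_eq U fun i => φ i (g i)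
  choose lim hlim using hlim
  have hkey : ∀ g h : ∀ i, Gal(Ω i/F i), rH U L g y = rH U L h y → lim g = lim h := by
    intro g h hgh
    have h1 := congrArg (algebraMap L (UP U Ω)) hgh
    rw [rH_spec, rH_spec, hy, actHom_mk, actHom_mk, mk_eq_mk] at h1
    obtain ⟨i, h2, h3, h4, h5⟩ := (h1.and (hη.and ((hlim g).and (hlim h)))).exists
    rw [← h4, ← h5]
    exact h3 _ _ h2
  have hψ : ∀ z : L, ∃ x : X, ∀ g : ∀ i, Gal(Ω i/F i), rH U L g y = z → lim g = x := by
    intro z
    by_cases hz : ∃ g : ∀ i, Gal(Ω i/F i), rH U L g y = z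
    · obtain ⟨g, hg⟩ := hz
      exact ⟨lim g, fun h hh => hkey h g (hh.trans hg.symm)⟩
    · push Not at hz
      exact ⟨lim 1, fun g hg => absurd hg (hz g)⟩
  choose ψ hψ using hψ
  refine ⟨fun σ => ψ (σ y), isLocallyConstant_apply y ψ, fun g => ?_⟩
  have h1 := hψ (rH U L g y) g rfl
  filter_upwards [hlim g] with i hi
  rw [hi]
  exact h1

/-- transfer from the ultraproduct to the factors -/
theorem down_transfer {X : Type v} (Φ : Gal(L/UP U F) → X) (hΦ : IsLocallyConstant Φ) :
    ∃ φ : ∀ i, Gal(Ω i/F i) → X, (∀ i, IsLocallyConstant (φ i)) ∧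
      ∀ g : ∀ i, Gal(Ω i/F i), ∀ᶠ i in (U : Filter ι), φ i (g i) = Φ (rH U L g) := by
  classical
  obtain ⟨V, hV, hV1⟩ := exists_nhds_invariant hΦ
  rw [krullTopology_mem_nhds_one_iff] at hV
  obtain ⟨E, hE, hEV⟩ := hV
  let pb := Field.powerBasisOfFiniteOfSeparable (UP U F) E
  set θ : L := (pb.gen : L) with hθ
  have hfac : ∀ σ τ : Gal(L/UP U F), σ θ = τ θ → Φ σ = Φ τ := by
    intro σ τ hst
    have h1 : ((σ : L →ₐ[UP U F] L).comp E.val) = ((τ : L →ₐ[UP U F] L).comp E.val) := by
      apply pb.algHom_ext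
      exact hst
    have h2 : σ⁻¹ * τ ∈ E.fixingSubgroup := by
      rw [IntermediateField.mem_fixingSubgroup_iff]
      intro x hx
      have h3 := DFunLike.congr_fun h1 ⟨x, hx⟩
      have h4 : σ x = τ x := h3
      rw [AlgEquiv.mul_apply, ← h4]
      exact σ.symm_apply_apply x
    have h5 := hV1 σ _ (hEV h2)
    rw [← h5, mul_inv_cancel_left]
  -- the orbit of `θ`
  set R : Set L := {y | ∃ σ : Gal(L/UP U F), σ θ = y} with hR
  have hRfin : R.Finite := by
    apply ((minpoly (UP U F) θ).rootSet_finite L).subset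
    rintro y ⟨σ, rfl⟩
    rw [mem_rootSet]
    refine ⟨minpoly.ne_zero (Algebra.IsIntegral.isIntegral θ), ?_⟩
    rw [← minpoly.algEquiv_eq σ θ]
    exact minpoly.aeval _ _
  choose Y hY using fun y : L => mk_surjective U (algebraMap L (UP U Ω) y)
  have hψ : ∀ y : L, ∃ x : X, ∀ σ : Gal(L/UP U F), σ θ = y → Φ σ = x := by
    intro y
    by_cases hy : ∃ σ : Gal(L/UP U F), σ θ = y
    · obtain ⟨σ, hσ⟩ := hy
      exact ⟨Φ σ, fun τ hτ => hfac τ σ (hτ.trans hσ.symm)⟩
    · push Not at hy
      exact ⟨Φ 1, fun τ hτ => absurd hτ (hy τ)⟩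
  choose ψ hψ using hψ
  have hsep : ∀ᶠ i in (U : Filter ι), ∀ y ∈ R, ∀ z ∈ R, Y y i = Y z i → y = z := by
    rw [Filter.eventually_all_finite hRfin]
    intro y _
    rw [Filter.eventually_all_finite hRfin]
    intro z _
    by_cases hyz : y = z
    · exact Filter.Eventually.of_forall fun _ _ => hyz
    · have h1 : ¬ ∀ᶠ i in (U : Filter ι), Y y i = Y z i := by
        rw [← mk_eq_mk, hY, hY]
        exact fun h => hyz ((algebraMap L (UP U Ω)).injective h)
      rw [← Ultrafilter.eventually_not] at h1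
      filter_upwards [h1] with i hi h
      exact absurd h hi
  let c : ∀ i, Ω i → X := fun i w =>
    if h : ∃ y ∈ R, Y y i = w then ψ h.choose else Φ 1
  refine ⟨fun i g => c i (g (Y θ i)), fun i => isLocallyConstant_apply (Y θ i) (c i), ?_⟩
  intro g
  have h1 : mk U (Y (rH U L g θ)) = mk U fun i => g i (Y θ i) := by
    rw [hY, rH_spec, ← hY, actHom_mk]
  rw [mk_eq_mk] at h1
  filter_upwards [h1, hsep] with i h2 h3
  have hex : ∃ y ∈ R, Y y i = g i (Y θ i) := ⟨_, ⟨rH U L g, rfl⟩, h2⟩
  have h4 : c i (g i (Y θ i)) = ψ hex.choose := dif_pos hex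
  have h5 := hex.choose_spec
  have h6 : hex.choose = rH U L g θ :=
    h3 _ h5.1 _ ⟨rH U L g, rfl⟩ (h5.2.trans h2.symm)
  rw [h4, h6]
  exact (hψ _ _ rfl).symm

end Pool.Agent.Helper14.Massey
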