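import Mathlib
import Pool.Agent.Helper14.Massey.Defs
import Pool.Agent.Helper14.Massey.Transfer

/-! # Locally constant functions on the maximal pro-`p` quotient of a compact group -/

set_option autoImplicit false

namespace Pool.Agent.Helper14.Massey

universe u v

open Topology

section Basic

variable {p : ℕ} {G : Type u} [Group G] [TopologicalSpace G]

theorem top_mem_POpen : (⊤ : Subgroup G) ∈ POpen p G :=
  ⟨inferInstance, by simp, 0, by simp⟩

theorem inf_mem_POpen (hp : p.Prime) {N M : Subgroup G} (hN : N ∈ POpen p G) (hM : M ∈ POpen p G) :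
    N ⊓ M ∈ POpen p G := by
  obtain ⟨hN1, hN2, k, hk⟩ := hN
  obtain ⟨hM1, hM2, l, hl⟩ := hM
  refine ⟨inferInstance, hN2.inter hM2, ?_⟩
  have h1 : (N ⊓ M).relIndex M * M.index = (N ⊓ M).index := Subgroup.relIndex_mul_index inf_le_right
  rw [Subgroup.inf_relIndex_right] at h1
  have h2 : N.relIndex M ∣ N.index := Subgroup.relIndex_dvd_index_of_normal N M
  rw [hk, Nat.dvd_prime_pow hp] at h2
  obtain ⟨m, _, hm⟩ := h2
  exact ⟨m + l, by rw [← h1, hm, hl, pow_add]⟩

theorem proPKer_le {N : Subgroup G} (hN : N ∈ POpen p G) : proPKer p G ≤ N := sInf_le hN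

theorem isLocallyConstant_of_ker [ContinuousMul G] {Q : Type v} [Group Q] (f : G →* Q)
    (hf : IsOpen (f.ker : Set G)) : IsLocallyConstant f := by
  rw [IsLocallyConstant.iff_exists_open]
  intro g
  refine ⟨{h | g⁻¹ * h ∈ (f.ker : Set G)}, ?_, ?_, ?_⟩
  · exact hf.preimage (continuous_const.mul continuous_id)
  · simp
  · intro h hh
    have h2 : f (g⁻¹ * h) = 1 := hh
    rw [map_mul, map_inv, inv_mul_eq_one] at h2
    exact h2.symm

theorem ker_mem_POpen (hp : p.Prime) {Q : Type v} [Group Q] [Finite Q] (f : G →* Q)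
    (hf : IsLocallyConstant f) (e : ℕ) (h : ∀ g, f g ^ p ^ e = 1) : f.ker ∈ POpen p G := by
  have : Fact p.Prime := ⟨hp⟩
  refine ⟨inferInstance, ?_, ?_⟩
  · have : (f.ker : Set G) = f ⁻¹' {1} := by
      ext g
      simp [MonoidHom.mem_ker]
    rw [this]
    exact hf {1}
  · rw [Subgroup.index_ker]
    have h1 : IsPGroup p f.range := by
      rintro ⟨_, g, rfl⟩
      exact ⟨e, Subtype.ext (h g)⟩
    exact IsPGroup.iff_card.mp h1

/-- a homomorphism with kernel of `p`-power index descends to the maximal pro-`p` quotient -/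
theorem exists_descend {Q : Type v} [Group Q] [IsTopologicalGroup G] (f : G →* Q)
    (hf : f.ker ∈ POpen p G) :
    ∃ f' : MaxProP p G →* Q, IsLocallyConstant f' ∧ ∀ g : G, f' (g : MaxProP p G) = f g := by
  refine ⟨QuotientGroup.lift (proPKer p G) f (proPKer_le hf), ?_, fun g => rfl⟩
  intro s
  have hq : IsOpenQuotientMap (QuotientGroup.mk : G → MaxProP p G) :=
    QuotientGroup.isOpenQuotientMap_mk
  rw [← hq.isQuotientMap.isOpen_preimage]
  exact isLocallyConstant_of_ker f hf.2.1 s

variable [IsTopologicalGroup G] [CompactSpace G]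

theorem exists_POpen_of_nhds (hp : p.Prime) {W : Set (MaxProP p G)}
    (hW : W ∈ 𝓝 (1 : MaxProP p G)) : ∃ N ∈ POpen p G, ∀ g ∈ N, (g : MaxProP p G) ∈ W := by
  by_contra hcon
  push Not at hcon
  obtain ⟨V, hVW, hV, h1V⟩ := mem_nhds_iff.mp hW
  let V' : Set G := QuotientGroup.mk ⁻¹' V
  have hV' : IsOpen V' := hV.preimage QuotientGroup.continuous_mk
  let t : POpen p G → Set G := fun N => (N : Subgroup G) \ V'
  have hne : Nonempty (POpen p G) := ⟨⟨⊤, top_mem_POpen⟩⟩
  have hcl : ∀ N : POpen p G, IsClosed (t N) := fun N =>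
    (Subgroup.isClosed_of_isOpen _ N.2.2.1).sdiff hV'
  have key : (⋂ N, t N).Nonempty := by
    apply IsCompact.nonempty_iInter_of_directed_nonempty_isCompact_isClosed
    · rintro ⟨N, hN⟩ ⟨M, hM⟩
      refine ⟨⟨N ⊓ M, inf_mem_POpen hp hN hM⟩, ?_, ?_⟩
      · rintro x ⟨hx, hx'⟩
        exact ⟨hx.1, hx'⟩
      · rintro x ⟨hx, hx'⟩
        exact ⟨hx.2, hx'⟩
    · rintro ⟨N, hN⟩
      obtain ⟨g, hg, hgW⟩ := hcon N hN
      exact ⟨g, hg, fun h => hgW (hVW h)⟩
    · exact fun N => (hcl N).isCompact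
    · exact hcl
  obtain ⟨x, hx⟩ := key
  rw [Set.mem_iInter] at hx
  have h1 : x ∈ proPKer p G := by
    rw [proPKer, Subgroup.mem_sInf]
    intro N hN
    exact (hx ⟨N, hN⟩).1
  have h2 : x ∉ V' := (hx ⟨⊤, top_mem_POpen⟩).2
  apply h2
  have h3 : (x : MaxProP p G) = 1 := (QuotientGroup.eq_one_iff x).mpr h1
  change (x : MaxProP p G) ∈ V
  rw [h3]
  exact h1V

/-- a locally constant function on the maximal pro-`p` quotient factors through a quotient by an
open normal subgroup of `p`-power index -/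
theorem exists_factor (hp : p.Prime) {X : Type v} {f : MaxProP p G → X}
    (hf : IsLocallyConstant f) :
    ∃ N ∈ POpen p G, ∀ g h : G, g⁻¹ * h ∈ N → f (g : MaxProP p G) = f (h : MaxProP p G) := by
  obtain ⟨V, hV, hV1⟩ := exists_nhds_invariant hf
  obtain ⟨N, hN, hNV⟩ := exists_POpen_of_nhds hp hV
  refine ⟨N, hN, fun g h hgh => ?_⟩
  have h1 := hV1 (g : MaxProP p G) _ (hNV _ hgh)
  rw [← QuotientGroup.mk_mul, mul_inv_cancel_left] at h1
  exact h1.symm

theorem exists_factor₂ (hp : p.Prime) {X : Type v} {f : MaxProP p G → MaxProP p G → X}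
    (hf : IsLocallyConstant fun x : MaxProP p G × MaxProP p G => f x.1 x.2) :
    ∃ N ∈ POpen p G, ∀ g h g' h' : G, g⁻¹ * g' ∈ N → h⁻¹ * h' ∈ N →
      f (g : MaxProP p G) (h : MaxProP p G) = f (g' : MaxProP p G) (h' : MaxProP p G) := by
  obtain ⟨V, hV, hV1⟩ := exists_nhds_invariant hf
  have hV2 : V ∈ 𝓝 ((1 : MaxProP p G), (1 : MaxProP p G)) := hV
  rw [mem_nhds_prod_iff] at hV2
  obtain ⟨A, hA, B, hB, hAB⟩ := hV2
  obtain ⟨N, hN, hNV⟩ := exists_POpen_of_nhds hp (Filter.inter_mem hA hB)
  refine ⟨N, hN, fun g h g' h' hg hh => ?_⟩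
  have h1 := hV1 ((g : MaxProP p G), (h : MaxProP p G))
    (((g⁻¹ * g' : G) : MaxProP p G), ((h⁻¹ * h' : G) : MaxProP p G))
    (hAB ⟨(hNV _ hg).1, (hNV _ hh).2⟩)
  simp only [Prod.mk_mul_mk, ← QuotientGroup.mk_mul, mul_inv_cancel_left] at h1
  exact h1.symm

/-- every element of the image of a finite quotient of the maximal pro-`p` quotient has `p`-power
order -/
theorem pow_eq_one_of_hom (hp : p.Prime) {Q : Type v} [Group Q] [Finite Q]
    (f : MaxProP p G →* Q) (hf : IsLocallyConstant f) (x : MaxProP p G) :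
    f x ^ p ^ Nat.card Q = 1 := by
  obtain ⟨N, ⟨hN1, hN2, k, hk⟩, hNf⟩ := exists_factor hp hf
  obtain ⟨g, rfl⟩ := QuotientGroup.mk_surjective x
  have h1 : g ^ p ^ k ∈ N := by
    rw [← hk]
    exact Subgroup.pow_index_mem N g
  have h2 := hNf 1 (g ^ p ^ k) (by simpa using h1)
  rw [QuotientGroup.mk_one, map_one, QuotientGroup.mk_pow, map_pow] at h2
  have h3 : orderOf (f (g : MaxProP p G)) ∣ p ^ k := orderOf_dvd_of_pow_eq_one h2.symm
  rw [Nat.dvd_prime_pow hp] at h3
  obtain ⟨m, _, hm⟩ := h3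
  rw [← orderOf_dvd_iff_pow_eq_one, hm]
  apply pow_dvd_pow
  have h4 : orderOf (f (g : MaxProP p G)) ≤ Nat.card Q := orderOf_le_card
  rw [hm] at h4
  exact (Nat.lt_pow_self hp.one_lt).le.trans h4

end Basic

/-- An open normal subgroup `N` of index at most `B` of the Galois group of a Galois extension is
detected by the action on an element of degree at most `B`. -/
theorem exists_detecting {K E : Type u} [Field K] [Field E] [Algebra K E] [IsGalois K E]
    (N : Subgroup Gal(E/K)) (hN : IsOpen (N : Set Gal(E/K))) :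
    ∃ η : E, (minpoly K η).natDegree = N.index ∧ ∀ g h : Gal(E/K), g η = h η → g⁻¹ * h ∈ N := by
  let C : ClosedSubgroup Gal(E/K) := ⟨N, Subgroup.isClosed_of_isOpen N hN⟩
  have h1 : (IntermediateField.fixedField N).fixingSubgroup = N :=
    InfiniteGalois.fixingSubgroup_fixedField C
  set M := IntermediateField.fixedField N with hM
  have hfin : FiniteDimensional K M := by
    rw [← InfiniteGalois.isOpen_iff_finite]
    change IsOpen (M.fixingSubgroup : Set Gal(E/K))
    rw [h1]
    exact hN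
  have hsep : Algebra.IsSeparable K M := inferInstance
  obtain ⟨α, hα⟩ := Field.exists_primitive_element K M
  refine ⟨(α : E), ?_, ?_⟩
  · have h2 : Module.finrank K M = M.fixingSubgroup.index :=
      IntermediateField.finrank_eq_fixingSubgroup_index E M
    rw [h1] at h2
    rw [← h2]
    have h3 : minpoly K (α : E) = minpoly K α :=
      minpoly.algebraMap_eq (algebraMap M E).injective α
    rw [h3, ← IntermediateField.adjoin.finrank (Algebra.IsIntegral.isIntegral α), hα,
      IntermediateField.finrank_top']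
  · intro g h hgh
    rw [← h1, IntermediateField.mem_fixingSubgroup_iff]
    intro x hx
    have h4 : ((g : E →ₐ[K] E).comp M.val) = ((h : E →ₐ[K] E).comp M.val) := by
      apply AlgHom.ext
      intro y
      have hy : y ∈ IntermediateField.adjoin K {α} := by rw [hα]; trivial
      induction hy using IntermediateField.adjoin_induction with
      | mem z hz =>
        rw [Set.mem_singleton_iff] at hz
        subst hz
        exact hgh
      | algebraMap z => simp
      | add z w _ _ hz hw => simp only [map_add, hz, hw]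
      | inv z _ hz => simp only [map_inv₀, hz]
      | mul z w _ _ hz hw => simp only [map_mul, hz, hw]
    have h5 := DFunLike.congr_fun h4 ⟨x, hx⟩
    have h6 : g x = h x := h5
    rw [AlgEquiv.mul_apply, ← h6]
    exact g.symm_apply_apply x

end Pool.Agent.Helper14.Massey
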