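import Mathlib
import Pool.Agent.Helper14.Massey.Defs

/-! # Symbol length: elementary reformulations -/

set_option autoImplicit false

namespace Pool.Agent.Helper14.Massey

universe u v

variable {p : ℕ} {H : Type u} [Group H] [TopologicalSpace H]

/-- a class is a sum of `m` cup products -/
def IsSumCup (m : ℕ) (α : H2 p H) : Prop :=
  ∃ a b : Fin m → H1 p H, α = ∑ i, cupH (a i) (b i)

theorem cls_eq_iff {f g : H → H → ZMod p} (hf : f ∈ Z2 p H) (hg : g ∈ Z2 p H) :
    cls f hf = cls g hg ↔ ∃ a : H → ZMod p, Continuous a ∧ f - g = d1 a := by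
  rw [cls, cls, QuotientAddGroup.eq_iff_sub_mem, AddSubgroup.mem_addSubgroupOf]
  rfl

theorem sum_cupH {κ : Type} (s : Finset κ) (a b : κ → H1 p H) :
    ∑ i ∈ s, cupH (a i) (b i) =
      cls (∑ i ∈ s, cup (a i : H → ZMod p) (b i : H → ZMod p))
        (AddSubgroup.sum_mem _ fun i _ => cup_mem_Z2 (a i) (b i)) := by
  have h1 : ∀ i ∈ s, cupH (a i) (b i) = QuotientAddGroup.mk' _
      (⟨cup (a i : H → ZMod p) (b i : H → ZMod p), cup_mem_Z2 (a i) (b i)⟩ : Z2 p H) :=
    fun _ _ => rfl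
  rw [Finset.sum_congr rfl h1, ← map_sum, cls]
  change QuotientAddGroup.mk' _ _ = QuotientAddGroup.mk' _ _
  congr 1
  apply Subtype.ext
  simp

/-- elementary form of the statement that a class is a sum of `m` cup products -/
theorem isSumCup_cls_iff {m : ℕ} {f : H → H → ZMod p} (hf : f ∈ Z2 p H) :
    IsSumCup m (cls f hf) ↔ ∃ a b : Fin m → H1 p H, ∃ c : H → ZMod p, Continuous c ∧
      ∀ σ τ, f σ τ = ∑ i, (a i : H → ZMod p) σ * (b i : H → ZMod p) τ +
        (c σ + c τ - c (σ * τ)) := by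
  unfold IsSumCup
  refine exists_congr fun a => exists_congr fun b => ?_
  rw [sum_cupH, cls_eq_iff]
  refine exists_congr fun c => and_congr Iff.rfl ?_
  constructor
  · intro h σ τ
    have h1 := congrFun (congrFun h σ) τ
    simp only [Pi.sub_apply, Finset.sum_apply, cup, d1] at h1
    rw [← h1]
    ring
  · intro h
    funext σ τ
    simp only [Pi.sub_apply, Finset.sum_apply, cup, d1]
    rw [h σ τ]
    ring

theorem exists_cls (α : H2 p H) : ∃ (f : H → H → ZMod p) (hf : f ∈ Z2 p H), α = cls f hf := by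
  obtain ⟨⟨f, hf⟩, rfl⟩ := QuotientAddGroup.mk_surjective α
  exact ⟨f, hf, rfl⟩

theorem cupH_zero_zero : cupH (0 : H1 p H) 0 = 0 := by
  have h : cupH (0 : H1 p H) 0 = QuotientAddGroup.mk (0 : Z2 p H) := by
    rw [cupH, cls]
    congr 1
    apply Subtype.ext
    funext σ τ
    simp [cup]
  rw [h, QuotientAddGroup.mk_zero]

theorem IsSumCup.mono {m n : ℕ} {α : H2 p H} (h : IsSumCup m α) (hmn : m ≤ n) :
    IsSumCup n α := by
  obtain ⟨k, rfl⟩ := Nat.exists_eq_add_of_le hmn
  obtain ⟨a, b, rfl⟩ := h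
  refine ⟨Fin.append a 0, Fin.append b 0, ?_⟩
  rw [Fin.sum_univ_add]
  simp [cupH_zero_zero]

theorem symbolLength_le_iff {M : ℕ} {α : H2 p H} :
    symbolLength α ≤ (M : ℕ∞) ↔ IsSumCup M α := by
  constructor
  · intro h
    by_contra hcon
    have h1 : ((M + 1 : ℕ) : ℕ∞) ≤ symbolLength α := by
      refine le_iInf₂ fun m hm => ?_
      have h2 : ¬ m ≤ M := fun h3 => hcon (IsSumCup.mono hm h3)
      exact_mod_cast (by omega : M + 1 ≤ m)
    have h2 := h1.trans h
    have h3 : M + 1 ≤ M := by exact_mod_cast h2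
    omega
  · intro h
    exact iInf₂_le (M) h

end Pool.Agent.Helper14.Massey
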