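import Mathlib
import Pool.Agent.Helper14.Massey.ProP
import Pool.Agent.Helper14.Massey.Symbol

/-! # Finite symbol length implies uniformly bounded symbol length -/

set_option autoImplicit false

namespace Pool.Agent.Helper14.Massey

universe u v

open Filter Topology

theorem isClosed_preimage {X : Type u} [TopologicalSpace X] {Y : Type v} {f : X → Y}
    (hf : IsLocallyConstant f) (s : Set Y) : IsClosed {x | f x ∈ s} :=
  ⟨hf sᶜ⟩

/-- an algebraic identity on a finite quotient gives a sum of cup products -/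
theorem isSumCup_of_hom {p : ℕ} {H : Type u} [Group H] [TopologicalSpace H] {Q : Type v} [Group Q]
    (π : H →* Q) (hπ : IsLocallyConstant π) {m : ℕ} {f : H → H → ZMod p} (hf : f ∈ Z2 p H)
    (a b : Fin m → Q → ZMod p) (c : Q → ZMod p) (ha : ∀ i x y, a i (x * y) = a i x + a i y)
    (hb : ∀ i x y, b i (x * y) = b i x + b i y)
    (h : ∀ σ τ, f σ τ = ∑ i, a i (π σ) * b i (π τ) + (c (π σ) + c (π τ) - c (π σ * π τ))) :
    IsSumCup m (cls f hf) := by
  rw [isSumCup_cls_iff]
  refine ⟨fun i => ⟨fun σ => a i (π σ), (hπ.comp (a i)).continuous, fun σ τ => ?_⟩,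
    fun i => ⟨fun σ => b i (π σ), (hπ.comp (b i)).continuous, fun σ τ => ?_⟩,
    fun σ => c (π σ), (hπ.comp c).continuous, fun σ τ => ?_⟩
  · show a i (π (σ * τ)) = _
    rw [map_mul, ha]
  · show b i (π (σ * τ)) = _
    rw [map_mul, hb]
  · rw [h σ τ, ← map_mul]

theorem family {p : ℕ} (hp : p.Prime) {P : Type v} [Group P] [Finite P] (β : P → P → ZMod p)
    (S : Set P)
    (hfin : ∀ (F : Type u) [Field F], (∃ ζ : F, IsPrimitiveRoot ζ p) →
      ∀ ρ : GalQ p F →* P, IsLocallyConstant ρ → (∀ σ, ρ σ ∈ S) →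
        ∀ h : (fun σ τ => β (ρ σ) (ρ τ)) ∈ Z2 p (GalQ p F), ∃ m, IsSumCup m (cls _ h))
    {ι : Type} (U : Ultrafilter ι) (F : ι → Type u)
    [∀ i, Field (F i)] (hζ : ∀ i, ∃ ζ : F i, IsPrimitiveRoot ζ p)
    (ρ : ∀ i, GalQ p (F i) →* P) (hρ : ∀ i, IsLocallyConstant (ρ i)) (hS : ∀ i σ, ρ i σ ∈ S)
    (hZ : ∀ i, (fun σ τ => β (ρ i σ) (ρ i τ)) ∈ Z2 p (GalQ p (F i))) :
    ∃ m : ℕ, ∀ᶠ i in (U : Filter ι), IsSumCup m (cls _ (hZ i)) := by
  classical
  have hp0 : NeZero p := ⟨hp.ne_zero⟩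
  have hpf : Fact p.Prime := ⟨hp⟩
  let Ω : ι → Type u := fun i => SeparableClosure (F i)
  let 𝔽 : Type u := UP U F
  let L : Type u := SeparableClosure 𝔽
  have hsc : IsSepClosed (UP U Ω) := inferInstance
  let j : L →ₐ[𝔽] UP U Ω := IsSepClosed.lift
  let hLΩ : Algebra L (UP U Ω) := j.toRingHom.toAlgebra
  have htow : IsScalarTower 𝔽 L (UP U Ω) := IsScalarTower.of_algebraMap_eq fun x => (j.commutes x).symm
  let G : Type u := Gal(L/𝔽)
  let r : (∀ i, Gal(Ω i/F i)) →* Gal(L/𝔽) := rH U L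
  have hdense : DenseRange r := denseRange_rH U L
  let φ : ∀ i, Gal(Ω i/F i) → P := fun i g => ρ i (g : GalQ p (F i))
  have hφmul : ∀ i g h, φ i (g * h) = φ i g * φ i h := by
    intro i g h
    simp only [φ, QuotientGroup.mk_mul, map_mul]
  have hφlc : ∀ i, IsLocallyConstant (φ i) := fun i =>
    (hρ i).comp_continuous QuotientGroup.continuous_mk
  -- detecting elements
  have hdet : ∀ i, ∃ η : Ω i, (minpoly (F i) η).natDegree < Nat.card P + 1 ∧
      ∀ g h : Gal(Ω i/F i), g η = h η → φ i g = φ i h := by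
    intro i
    let f : Gal(Ω i/F i) →* P := (ρ i).comp (QuotientGroup.mk' _)
    have hopen : IsOpen (f.ker : Set Gal(Ω i/F i)) := by
      have : (f.ker : Set Gal(Ω i/F i)) = φ i ⁻¹' {1} := by
        ext g
        simp [f, φ, MonoidHom.mem_ker]
      rw [this]
      exact hφlc i {1}
    obtain ⟨η, h1, h2⟩ := exists_detecting f.ker hopen
    refine ⟨η, ?_, fun g h hgh => ?_⟩
    · rw [h1, Subgroup.index_ker]
      exact Nat.lt_succ_of_le (Subgroup.card_le_card_group _)
    · have h3 := h2 g h hgh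
      rw [MonoidHom.mem_ker, map_mul, map_inv, inv_mul_eq_one] at h3
      exact h3
  choose η hη1 hη2 using hdet
  obtain ⟨Φ, hΦlc, hΦ⟩ := up_transfer U L φ (Nat.card P + 1) η (Filter.Eventually.of_forall hη1)
    (Filter.Eventually.of_forall hη2)
  -- `Φ` is a homomorphism
  have hΦmul : ∀ σ τ : G, Φ (σ * τ) = Φ σ * Φ τ := by
    refine hdense.induction_on₂ ?_ ?_
    · have h1 : IsLocallyConstant fun x : G × G => (Φ (x.1 * x.2), Φ x.1, Φ x.2) :=
        (hΦlc.comp_continuous (continuous_fst.mul continuous_snd)).prodMk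
          ((hΦlc.comp_continuous continuous_fst).prodMk (hΦlc.comp_continuous continuous_snd))
      exact isClosed_preimage h1 {y : P × P × P | y.1 = y.2.1 * y.2.2}
    · intro g h
      rw [← map_mul]
      obtain ⟨i, h1, h2, h3⟩ := ((hΦ (g * h)).and ((hΦ g).and (hΦ h))).exists
      rw [← h1, ← h2, ← h3]
      exact hφmul i _ _
  have hΦpow : ∀ σ : G, Φ σ ^ p ^ Nat.card P = 1 := by
    intro σ
    refine hdense.induction_on σ ?_ ?_
    · exact isClosed_preimage hΦlc {y : P | y ^ p ^ Nat.card P = 1}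
    · intro g
      obtain ⟨i, h1⟩ := (hΦ g).exists
      rw [← h1]
      exact pow_eq_one_of_hom hp (ρ i) (hρ i) _
  have hΦS : ∀ σ : G, Φ σ ∈ S := by
    intro σ
    refine hdense.induction_on σ ?_ ?_
    · exact isClosed_preimage hΦlc S
    · intro g
      obtain ⟨i, h1⟩ := (hΦ g).exists
      rw [← h1]
      exact hS i _
  let Φ' : G →* P := MonoidHom.mk' Φ hΦmul
  have hΦ'ker : Φ'.ker ∈ POpen p G := ker_mem_POpen hp Φ' hΦlc _ hΦpow
  obtain ⟨ρ0, hρ0lc, hρ0⟩ := exists_descend Φ' hΦ'ker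
  have hρ0' : ∀ g : G, ρ0 (g : MaxProP p G) = Φ g := hρ0
  -- the limit cocycle
  have hZ0 : (fun σ τ => β (ρ0 σ) (ρ0 τ)) ∈ Z2 p (MaxProP p G) := by
    refine ⟨?_, ?_⟩
    · have h1 : IsLocallyConstant fun x : MaxProP p G × MaxProP p G => (ρ0 x.1, ρ0 x.2) :=
        (hρ0lc.comp_continuous continuous_fst).prodMk (hρ0lc.comp_continuous continuous_snd)
      exact (h1.comp fun y : P × P => β y.1 y.2).continuous
    · intro σ τ υ
      obtain ⟨σ, rfl⟩ := QuotientGroup.mk_surjective σ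
      obtain ⟨τ, rfl⟩ := QuotientGroup.mk_surjective τ
      obtain ⟨υ, rfl⟩ := QuotientGroup.mk_surjective υ
      simp only [← QuotientGroup.mk_mul, hρ0', hΦmul]
      revert υ
      revert τ
      revert σ
      refine hdense.induction_on₃ ?_ ?_
      · have h1 : IsLocallyConstant fun x : G × G × G => (Φ x.1, Φ x.2.1, Φ x.2.2) :=
          (hΦlc.comp_continuous continuous_fst).prodMk
            ((hΦlc.comp_continuous (continuous_fst.comp continuous_snd)).prodMk
              (hΦlc.comp_continuous (continuous_snd.comp continuous_snd)))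
        exact isClosed_preimage h1 {y : P × P × P |
          β y.2.1 y.2.2 - β (y.1 * y.2.1) y.2.2 + β y.1 (y.2.1 * y.2.2) - β y.1 y.2.1 = 0}
      · intro g h k
        obtain ⟨i, h1, h2, h3⟩ := ((hΦ g).and ((hΦ h).and (hΦ k))).exists
        rw [← h1, ← h2, ← h3]
        have h4 := (hZ i).2 (g i : GalQ p (F i)) (h i : GalQ p (F i)) (k i : GalQ p (F i))
        simp only [map_mul] at h4
        exact h4
  -- the limit class has finite symbol length
  have hζ0 : ∃ ζ : 𝔽, IsPrimitiveRoot ζ p := by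
    choose ζ hζ using hζ
    refine ⟨mk U ζ, ?_⟩
    have h1 : mk U ζ ^ p = 1 := by
      rw [← map_pow, ← map_one (mk U), mk_eq_mk]
      exact Filter.Eventually.of_forall fun i => (hζ i).pow_eq_one
    have h2 : mk U ζ ≠ 1 := by
      intro h
      rw [← map_one (mk U), mk_eq_mk] at h
      obtain ⟨i, hi⟩ := h.exists
      exact (hζ i).ne_one hp.one_lt hi
    have h3 := IsPrimitiveRoot.orderOf (mk U ζ)
    rw [orderOf_eq_prime h1 h2] at h3
    exact h3
  obtain ⟨m, hsum⟩ := hfin 𝔽 hζ0 ρ0 hρ0lc (by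
    intro σ
    obtain ⟨σ, rfl⟩ := QuotientGroup.mk_surjective σ
    rw [hρ0']
    exact hΦS σ) hZ0
  refine ⟨m, ?_⟩
  rw [isSumCup_cls_iff] at hsum
  obtain ⟨a, b, c, hc, habc⟩ := hsum
  -- a common finite quotient
  let K : MaxProP p G → ((Fin m → ZMod p) × (Fin m → ZMod p) × ZMod p) × P := fun x =>
    ((fun i => (a i : MaxProP p G → ZMod p) x, fun i => (b i : MaxProP p G → ZMod p) x, c x),
      ρ0 x)
  have hK : IsLocallyConstant K := by
    have h1 : IsLocallyConstant fun x : MaxProP p G =>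
        ((fun i => (a i : MaxProP p G → ZMod p) x, fun i => (b i : MaxProP p G → ZMod p) x, c x) :
          (Fin m → ZMod p) × (Fin m → ZMod p) × ZMod p) := by
      rw [IsLocallyConstant.iff_continuous]
      exact (continuous_pi fun i => (a i).2.1).prodMk
        ((continuous_pi fun i => (b i).2.1).prodMk hc)
    exact h1.prodMk hρ0lc
  obtain ⟨N, hNP, hNK⟩ := exists_factor hp hK
  have hNn : N.Normal := hNP.1
  obtain ⟨k, hk⟩ := hNP.2.2
  let Q : Type u := G ⧸ N
  let π : G →* Q := QuotientGroup.mk' N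
  have hNfi : N.FiniteIndex := ⟨by rw [hk]; exact pow_ne_zero _ hp.ne_zero⟩
  have hQfin : Finite Q := Subgroup.finite_quotient_of_finiteIndex
  have hQcard : Nat.card Q = p ^ k := hk
  have hπlc : IsLocallyConstant π := isLocallyConstant_of_ker π (by
    rw [QuotientGroup.ker_mk']
    exact hNP.2.1)
  have hπsurj : Function.Surjective π := QuotientGroup.mk'_surjective N
  -- the functions on the finite quotient
  let K' : Q → ((Fin m → ZMod p) × (Fin m → ZMod p) × ZMod p) × P := fun x =>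
    K ((Function.surjInv hπsurj x : G) : MaxProP p G)
  have hK' : ∀ g : G, K' (π g) = K (g : MaxProP p G) := by
    intro g
    apply hNK
    have h1 : π (Function.surjInv hπsurj (π g)) = π g := Function.surjInv_eq hπsurj (π g)
    exact QuotientGroup.eq.mp h1
  let a' : Fin m → Q → ZMod p := fun i x => (K' x).1.1 i
  let b' : Fin m → Q → ZMod p := fun i x => (K' x).1.2.1 i
  let c' : Q → ZMod p := fun x => (K' x).1.2.2
  let Φ₁ : Q → P := fun x => (K' x).2
  have ha' : ∀ i (g : G), a' i (π g) = (a i : MaxProP p G → ZMod p) (g : MaxProP p G) := by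
    intro i g
    simp only [a', hK']
    rfl
  have hb' : ∀ i (g : G), b' i (π g) = (b i : MaxProP p G → ZMod p) (g : MaxProP p G) := by
    intro i g
    simp only [b', hK']
    rfl
  have hc' : ∀ (g : G), c' (π g) = c (g : MaxProP p G) := by
    intro g
    simp only [c', hK']
    rfl
  have hΦ₁ : ∀ g : G, Φ₁ (π g) = Φ g := by
    intro g
    simp only [Φ₁, hK', ← hρ0']
    rfl
  have hadd : ∀ i x y, a' i (x * y) = a' i x + a' i y := by
    intro i x y
    obtain ⟨g, rfl⟩ := hπsurj x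
    obtain ⟨h, rfl⟩ := hπsurj y
    rw [← map_mul, ha', ha', ha', QuotientGroup.mk_mul]
    exact (a i).2.2 _ _
  have hbdd : ∀ i x y, b' i (x * y) = b' i x + b' i y := by
    intro i x y
    obtain ⟨g, rfl⟩ := hπsurj x
    obtain ⟨h, rfl⟩ := hπsurj y
    rw [← map_mul, hb', hb', hb', QuotientGroup.mk_mul]
    exact (b i).2.2 _ _
  have hid : ∀ x y, β (Φ₁ x) (Φ₁ y) = ∑ i, a' i x * b' i y + (c' x + c' y - c' (x * y)) := by
    intro x y
    obtain ⟨g, rfl⟩ := hπsurj x
    obtain ⟨h, rfl⟩ := hπsurj y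
    rw [← map_mul, hc', hc', hc', QuotientGroup.mk_mul, hΦ₁, hΦ₁, ← hρ0', ← hρ0', habc]
    simp only [ha', hb']
  -- transfer to the factors
  obtain ⟨q, hqlc, hq⟩ := down_transfer U L (F := F) (Ω := Ω) (π : Gal(L/UP U F) → Q) hπlc
  have hqmul : ∀ᶠ i in (U : Filter ι), ∀ x : Gal(Ω i/F i) × Gal(Ω i/F i),
      q i (x.1 * x.2) = q i x.1 * q i x.2 := by
    apply eventually_forall_of_forall U (X := fun i => Gal(Ω i/F i) × Gal(Ω i/F i))
      (fun i x => q i (x.1 * x.2) = q i x.1 * q i x.2) (fun i => ⟨(1, 1)⟩)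
    intro x
    filter_upwards [hq (fun i => (x i).1 * (x i).2), hq (fun i => (x i).1), hq (fun i => (x i).2)]
      with i h1 h2 h3
    rw [h1, h2, h3, ← map_mul]
    congr 1
    rw [← map_mul]
    rfl
  have hqφ : ∀ᶠ i in (U : Filter ι), ∀ x : Gal(Ω i/F i), φ i x = Φ₁ (q i x) := by
    apply eventually_forall_of_forall U (X := fun i => Gal(Ω i/F i))
      (fun i x => φ i x = Φ₁ (q i x)) (fun i => ⟨1⟩)
    intro x
    filter_upwards [hq x, hΦ x] with i h1 h2
    rw [h1, h2, hΦ₁]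
  filter_upwards [hqmul, hqφ] with i h1 h2
  let q' : Gal(Ω i/F i) →* Q := MonoidHom.mk' (q i) fun x y => h1 (x, y)
  have hq'ker : q'.ker ∈ POpen p Gal(Ω i/F i) := by
    apply ker_mem_POpen hp q' (hqlc i) k
    intro g
    rw [← hQcard]
    exact pow_card_eq_one'
  obtain ⟨q₀, hq₀lc, hq₀⟩ := exists_descend q' hq'ker
  apply isSumCup_of_hom q₀ hq₀lc (hZ i) a' b' c' hadd hbdd
  intro σ τ
  obtain ⟨g, rfl⟩ := QuotientGroup.mk_surjective σ
  obtain ⟨h, rfl⟩ := QuotientGroup.mk_surjective τ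
  rw [hq₀, hq₀]
  have h3 : ∀ g : Gal(Ω i/F i), ρ i (g : GalQ p (F i)) = Φ₁ (q' g) := h2
  rw [h3, h3]
  exact hid _ _

/-- If the pullbacks of a fixed function on a finite group `P` along homomorphisms with values in a
fixed subset `S` all have finite symbol length, then their symbol length is uniformly bounded. -/
theorem forward {p : ℕ} (hp : p.Prime) {P : Type v} [Group P] [Finite P] (β : P → P → ZMod p)
    (S : Set P)
    (hfin : ∀ (F : Type u) [Field F], (∃ ζ : F, IsPrimitiveRoot ζ p) →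
      ∀ ρ : GalQ p F →* P, IsLocallyConstant ρ → (∀ σ, ρ σ ∈ S) →
        ∀ h : (fun σ τ => β (ρ σ) (ρ τ)) ∈ Z2 p (GalQ p F), ∃ m, IsSumCup m (cls _ h)) :
    ∃ M : ℕ, ∀ (F : Type u) [Field F], (∃ ζ : F, IsPrimitiveRoot ζ p) →
      ∀ ρ : GalQ p F →* P, IsLocallyConstant ρ → (∀ σ, ρ σ ∈ S) →
        ∀ h : (fun σ τ => β (ρ σ) (ρ τ)) ∈ Z2 p (GalQ p F), IsSumCup M (cls _ h) := by
  by_contra hcon
  push Not at hcon
  choose F hF hζ ρ hρ hS hZ hnot using hcon
  obtain ⟨m, hm⟩ := family hp β S hfin (Filter.hyperfilter ℕ) F hζ ρ hρ hS hZ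
  have h1 : ∀ᶠ i in (Filter.hyperfilter ℕ : Filter ℕ), m ≤ i :=
    Nat.hyperfilter_le_atTop (Filter.eventually_ge_atTop m)
  obtain ⟨i, h2, h3⟩ := (hm.and h1).exists
  exact hnot i (h2.mono h3)

end Pool.Agent.Helper14.Massey
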