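import Mathlib
import Pool.Agent.Helper14.Massey.Forward

/-! # Values of defining systems are pullbacks from a fixed finite group -/

set_option autoImplicit false

namespace Pool.Agent.Helper14.Massey

universe u v

open Filter Topology

section

variable {p : ℕ} {H : Type u} [Group H]

/-- the unitriangular matrix attached to a triangular family of cochains -/
def uniMat {n : ℕ} (a : Fin n → Fin n → H → ZMod p) (σ : H) : Matrix (Fin n) (Fin n) (ZMod p) :=
  fun i j => if i = j then 1 else if i < j then - a i j σ else 0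

variable {n : ℕ} {a : Fin n → Fin n → H → ZMod p}

theorem uniMat_mul
    (h : ∀ i j, i < j → d1 (a i j) = ∑ k ∈ Finset.Ioo i j, cup (a i k) (a k j)) (σ τ : H) :
    uniMat a (σ * τ) = uniMat a σ * uniMat a τ := by
  ext i j
  rw [Matrix.mul_apply]
  rcases lt_trichotomy i j with hij | rfl | hij
  · have h1 := congrFun (congrFun (h i j hij) σ) τ
    simp only [d1, Finset.sum_apply, cup] at h1
    have h2 : ∀ k, uniMat a σ i k * uniMat a τ k j =
        (if k = i then - a i j τ else 0) + (if k = j then - a i j σ else 0) +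
          (if k ∈ Finset.Ioo i j then a i k σ * a k j τ else 0) := by
      intro k
      simp only [uniMat, Finset.mem_Ioo]
      rcases lt_trichotomy i k with hik | rfl | hik
      · rcases lt_trichotomy k j with hkj | rfl | hkj
        · simp [hik.ne, hik.ne', hik, hkj.ne, hkj]
        · simp [hik.ne, hik.ne', hik]
        · simp [hkj.ne', hkj.not_gt, hik.ne']
      · simp [hij.ne, hij]
      · simp [hik.ne, hik.ne', hik.not_gt, (hik.trans hij).ne]
    rw [Finset.sum_congr rfl fun k _ => h2 k, Finset.sum_add_distrib, Finset.sum_add_distrib,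
      Finset.sum_ite_eq' Finset.univ i, Finset.sum_ite_eq' Finset.univ j,
      ← Finset.sum_filter, Finset.filter_mem_eq_inter, Finset.univ_inter, ← h1]
    simp only [uniMat, hij.ne, hij, if_true, if_false, Finset.mem_univ]
    ring
  · have h2 : ∀ k, uniMat a σ i k * uniMat a τ k i = if k = i then 1 else 0 := by
      intro k
      simp only [uniMat]
      rcases lt_trichotomy i k with hik | rfl | hik
      · simp [hik.ne, hik.ne', hik.not_gt]
      · simp
      · simp [hik.ne, hik.ne', hik.not_gt]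
    rw [Finset.sum_congr rfl fun k _ => h2 k, Finset.sum_ite_eq' Finset.univ i]
    simp [uniMat]
  · have h2 : ∀ k, uniMat a σ i k * uniMat a τ k j = 0 := by
      intro k
      simp only [uniMat]
      by_cases hik : i ≤ k
      · have hkj : j < k := hij.trans_le hik
        simp [hkj.ne', hkj.not_gt]
      · rw [not_le] at hik
        simp [hik.ne', hik.not_gt]
    rw [Finset.sum_eq_zero fun k _ => h2 k]
    simp [uniMat, hij.ne', hij.not_gt]

theorem uniMat_one
    (h : ∀ i j, i < j → d1 (a i j) = ∑ k ∈ Finset.Ioo i j, cup (a i k) (a k j)) :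
    uniMat a 1 = 1 := by
  have key : ∀ d : ℕ, ∀ i j : Fin n, i < j → (j : ℕ) - i ≤ d → a i j 1 = 0 := by
    intro d
    induction d with
    | zero =>
      intro i j hij hd
      have : (i : ℕ) < j := hij
      omega
    | succ d ih =>
      intro i j hij hd
      have h1 := congrFun (congrFun (h i j hij) 1) 1
      simp only [d1, Finset.sum_apply, cup, mul_one, add_sub_cancel_right] at h1
      rw [h1]
      refine Finset.sum_eq_zero fun k hk => ?_
      rw [Finset.mem_Ioo] at hk
      have h2 : (i : ℕ) < k := hk.1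
      have h3 : (k : ℕ) < j := hk.2
      rw [ih i k hk.1 (by omega), zero_mul]
  ext i j
  rw [Matrix.one_apply]
  simp only [uniMat]
  split_ifs with h1 h2
  · rfl
  · rw [key _ i j h2 le_rfl, neg_zero]
  · rfl

/-- the representation attached to a triangular family of cochains -/
def uniHom
    (h : ∀ i j, i < j → d1 (a i j) = ∑ k ∈ Finset.Ioo i j, cup (a i k) (a k j)) :
    H →* (Matrix (Fin n) (Fin n) (ZMod p))ˣ :=
  MonoidHom.toHomUnits
    { toFun := uniMat a
      map_one' := uniMat_one h
      map_mul' := uniMat_mul h }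

theorem uniHom_coe
    (h : ∀ i j, i < j → d1 (a i j) = ∑ k ∈ Finset.Ioo i j, cup (a i k) (a k j)) (σ : H) :
    (uniHom h σ : Matrix (Fin n) (Fin n) (ZMod p)) = uniMat a σ := rfl

theorem uniHom_isLocallyConstant [TopologicalSpace H]
    (h : ∀ i j, i < j → d1 (a i j) = ∑ k ∈ Finset.Ioo i j, cup (a i k) (a k j))
    (hc : ∀ i j, i < j → Continuous (a i j)) : IsLocallyConstant (uniHom h) := by
  have h1 : IsLocallyConstant (uniMat a) := by
    have h2 : Continuous fun σ => (uniMat a σ : Fin n → Fin n → ZMod p) := by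
      refine continuous_pi fun i => continuous_pi fun j => ?_
      simp only [uniMat]
      split_ifs with h3 h4
      · exact continuous_const
      · exact (hc i j h4).neg
      · exact continuous_const
    exact (IsLocallyConstant.iff_continuous _).mpr h2
  intro s
  have h2 : (uniHom h : H → _) ⁻¹' s = uniMat a ⁻¹' ((fun x => x.val) '' s) := by
    ext σ
    constructor
    · intro hσ
      exact ⟨uniHom h σ, hσ, rfl⟩
    · rintro ⟨x, hx, hxσ⟩
      have h3 : x = uniHom h σ := Units.ext hxσ
      rw [h3] at hx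
      exact hx
  rw [h2]
  exact h1 _

end

/-- the finite group whose 2-cochains give the values of the defining systems of length `N + 1` -/
abbrev BigGroup (p N : ℕ) : Type :=
  (Matrix (Fin (N + 1)) (Fin (N + 1)) (ZMod p))ˣ × (Matrix (Fin (N + 1)) (Fin (N + 1)) (ZMod p))ˣ

/-- the universal value of a defining system of length `N + 1` -/
def bigβ (p N : ℕ) (x y : BigGroup p N) : ZMod p :=
  ∑ l : Fin N, x.1.val 0 l.succ * y.2.val l.castSucc (Fin.last N)

theorem sum_Ioo_zero_last {N : ℕ} {A : Type u} [AddCommMonoid A] (f : Fin (N + 2) → A) :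
    ∑ k ∈ Finset.Ioo 0 (Fin.last (N + 1)), f k = ∑ l : Fin N, f l.castSucc.succ := by
  rw [← Fin.succ_last, ← Fin.map_succEmb_Iio, Finset.sum_map]
  have h : (Finset.Iio (Fin.last N)) = Finset.univ.map Fin.castSuccEmb := by
    ext k
    simp only [Finset.mem_Iio, Finset.mem_map, Finset.mem_univ, true_and, Fin.coe_castSuccEmb]
    constructor
    · intro hk
      exact ⟨k.castPred hk.ne, by simp⟩
    · rintro ⟨l, rfl⟩
      exact Fin.castSucc_lt_last l
  rw [h, Finset.sum_map]
  rfl

/-- the pairs of unitriangular matrices which agree on the common block -/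
def MasseySet (p N : ℕ) : Set (BigGroup p N) :=
  {x | (∀ i j, j ≤ i → x.1.val i j = if i = j then 1 else 0) ∧
    (∀ i j, j ≤ i → x.2.val i j = if i = j then 1 else 0) ∧
    ∀ i j : Fin N, x.1.val i.succ j.succ = x.2.val i.castSucc j.castSucc}

theorem uniMat_of_le {p : ℕ} {H : Type u} {n : ℕ} (a : Fin n → Fin n → H → ZMod p) (σ : H)
    (i j : Fin n) (h : j ≤ i) : uniMat a σ i j = if i = j then 1 else 0 := by
  simp only [uniMat, if_neg h.not_gt]

theorem tri_mul {p n : ℕ} (A B : Matrix (Fin n) (Fin n) (ZMod p))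
    (hA : ∀ i j, j ≤ i → A i j = if i = j then 1 else 0)
    (hB : ∀ i j, j ≤ i → B i j = if i = j then 1 else 0) {i j : Fin n} (hij : i < j) :
    (A * B) i j = A i j + B i j + ∑ k ∈ Finset.Ioo i j, A i k * B k j := by
  rw [Matrix.mul_apply]
  have h2 : ∀ k, A i k * B k j =
      (if k = i then B i j else 0) + (if k = j then A i j else 0) +
        (if k ∈ Finset.Ioo i j then A i k * B k j else 0) := by
    intro k
    simp only [Finset.mem_Ioo]
    rcases lt_trichotomy i k with hik | rfl | hik
    · rcases lt_trichotomy k j with hkj | rfl | hkj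
      · simp [hik.ne', hik, hkj.ne, hkj]
      · simp [hik.ne', hB]
      · simp [hkj.ne', hkj.not_gt, hik.ne', hB k j hkj.le]
    · simp [hij.ne, hA]
    · simp [hik.ne, hik.ne', hik.not_gt, (hik.trans hij).ne, hA i k hik.le]
  rw [Finset.sum_congr rfl fun k _ => h2 k, Finset.sum_add_distrib, Finset.sum_add_distrib,
    Finset.sum_ite_eq' Finset.univ i, Finset.sum_ite_eq' Finset.univ j,
    ← Finset.sum_filter, Finset.filter_mem_eq_inter, Finset.univ_inter]
  simp only [if_true, Finset.mem_univ]
  ring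

/-- the value of a defining system is a pullback of a fixed function -/
theorem exists_pullback {p N : ℕ} {H : Type u} [Group H] [TopologicalSpace H]
    {φ : Fin (N + 1) → H1 p H} (D : DefiningSystem φ) :
    ∃ ρ : H →* BigGroup p N, IsLocallyConstant ρ ∧ (∀ σ, ρ σ ∈ MasseySet p N) ∧
      D.value = fun σ τ => bigβ p N (ρ σ) (ρ τ) := by
  have h1 : ∀ i j : Fin (N + 1), i < j → (i.castSucc, j.castSucc) ≠ (0, Fin.last (N + 1)) := by
    intro i j _ h
    rw [Prod.mk.injEq] at h
    exact (Fin.castSucc_lt_last j).ne h.2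
  have h2 : ∀ i j : Fin (N + 1), i < j → (i.succ, j.succ) ≠ (0, Fin.last (N + 1)) := by
    intro i j _ h
    rw [Prod.mk.injEq] at h
    exact Fin.succ_ne_zero i h.1
  have hA : ∀ i j : Fin (N + 1), i < j → d1 (D.a i.castSucc j.castSucc) =
      ∑ k ∈ Finset.Ioo i j, cup (D.a i.castSucc k.castSucc) (D.a k.castSucc j.castSucc) := by
    intro i j hij
    rw [D.rel _ _ (Fin.castSucc_lt_castSucc_iff.mpr hij) (h1 i j hij), ← Fin.map_castSuccEmb_Ioo,
      Finset.sum_map]
    rfl
  have hB : ∀ i j : Fin (N + 1), i < j → d1 (D.a i.succ j.succ) =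
      ∑ k ∈ Finset.Ioo i j, cup (D.a i.succ k.succ) (D.a k.succ j.succ) := by
    intro i j hij
    rw [D.rel _ _ (Fin.succ_lt_succ_iff.mpr hij) (h2 i j hij), ← Fin.map_succEmb_Ioo,
      Finset.sum_map]
    rfl
  refine ⟨(uniHom (a := fun i j => D.a i.castSucc j.castSucc) hA).prod
    (uniHom (a := fun i j => D.a i.succ j.succ) hB), ?_, ?_, ?_⟩
  · exact (uniHom_isLocallyConstant hA fun i j hij =>
      D.continuous _ _ (Fin.castSucc_lt_castSucc_iff.mpr hij) (h1 i j hij)).prodMk
      (uniHom_isLocallyConstant hB fun i j hij =>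
        D.continuous _ _ (Fin.succ_lt_succ_iff.mpr hij) (h2 i j hij))
  · intro σ
    refine ⟨fun i j h => ?_, fun i j h => ?_, fun i j => ?_⟩
    · rw [MonoidHom.prod_apply, uniHom_coe]
      exact uniMat_of_le _ _ _ _ h
    · rw [MonoidHom.prod_apply, uniHom_coe]
      exact uniMat_of_le _ _ _ _ h
    · rw [MonoidHom.prod_apply, uniHom_coe, uniHom_coe]
      simp only [uniMat, Fin.succ_inj, Fin.castSucc_inj, Fin.succ_lt_succ_iff,
        Fin.castSucc_lt_castSucc_iff]
      rfl
  · funext σ τ
    simp only [DefiningSystem.value, Finset.sum_apply, cup, bigβ]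
    rw [sum_Ioo_zero_last (fun k => D.a 0 k σ * D.a k (Fin.last (N + 1)) τ)]
    refine Finset.sum_congr rfl fun l _ => ?_
    have e1 : (uniHom (a := fun i j => D.a i.castSucc j.castSucc) hA σ).val 0 l.succ =
        - D.a 0 l.castSucc.succ σ := by
      rw [uniHom_coe, uniMat, if_neg (Fin.succ_ne_zero l).symm, if_pos (Fin.succ_pos l),
        Fin.succ_castSucc]
      rfl
    have e2 : (uniHom (a := fun i j => D.a i.succ j.succ) hB τ).val l.castSucc (Fin.last N) =
        - D.a l.castSucc.succ (Fin.last (N + 1)) τ := by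
      rw [uniHom_coe, uniMat, if_neg (Fin.castSucc_lt_last l).ne, if_pos (Fin.castSucc_lt_last l),
        Fin.succ_last]
    simp only [MonoidHom.prod_apply, e1, e2]
    ring

/-- conversely, a homomorphism with values in `MasseySet` comes from a defining system -/
theorem exists_defining_system {p N : ℕ} (hN : 1 ≤ N) {H : Type u} [Group H] [TopologicalSpace H]
    (ρ : H →* BigGroup p N) (hρ : IsLocallyConstant ρ) (hS : ∀ σ, ρ σ ∈ MasseySet p N) :
    ∃ (φ : Fin (N + 1) → H1 p H) (D : DefiningSystem φ),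
      D.value = fun σ τ => bigβ p N (ρ σ) (ρ τ) := by
  classical
  let g : Fin (N + 2) → Fin (N + 2) → BigGroup p N → ZMod p := fun i j x =>
    if hj : j ≠ Fin.last (N + 1) then
      (if hi : i ≠ Fin.last (N + 1) then - x.1.val (i.castPred hi) (j.castPred hj) else 0)
    else (if hi : i ≠ 0 ∧ j ≠ 0 then - x.2.val (i.pred hi.1) (j.pred hi.2) else 0)
  have g1 : ∀ (i j : Fin (N + 1)) x, g i.castSucc j.castSucc x = - x.1.val i j := by
    intro i j x
    simp only [g]
    rw [dif_pos (Fin.castSucc_lt_last j).ne, dif_pos (Fin.castSucc_lt_last i).ne]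
    simp
  have g2 : ∀ (i j : Fin (N + 1)) x, x ∈ MasseySet p N → i < j →
      g i.succ j.succ x = - x.2.val i j := by
    intro i j x hx hij
    induction j using Fin.lastCases with
    | last =>
      simp only [g]
      rw [dif_neg (by simp), dif_pos ⟨Fin.succ_ne_zero i, Fin.succ_ne_zero _⟩]
      simp only [Fin.pred_succ]
    | cast j =>
      induction i using Fin.lastCases with
      | last => exact absurd hij (Fin.le_last _).not_gt
      | cast i => rw [Fin.succ_castSucc, Fin.succ_castSucc, g1, hx.2.2]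
  have hgc : ∀ i j, Continuous fun σ => g i j (ρ σ) := fun i j => (hρ.comp (g i j)).continuous
  have hrel : ∀ i j : Fin (N + 2), i < j → (i, j) ≠ (0, Fin.last (N + 1)) → ∀ σ τ,
      g i j (ρ σ) + g i j (ρ τ) - g i j (ρ (σ * τ)) =
        ∑ k ∈ Finset.Ioo i j, g i k (ρ σ) * g k j (ρ τ) := by
    intro i j hij hne σ τ
    rw [map_mul]
    by_cases hj : j = Fin.last (N + 1)
    · have hi : i ≠ 0 := by
        rintro rfl
        exact hne (by rw [hj])
      have hj0 : j ≠ 0 := (Fin.zero_le i |>.trans_lt hij).ne'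
      obtain ⟨i, rfl⟩ := Fin.exists_succ_eq.mpr hi
      obtain ⟨j, rfl⟩ := Fin.exists_succ_eq.mpr hj0
      have hij' : i < j := Fin.succ_lt_succ_iff.mp hij
      have hST : ρ σ * ρ τ ∈ MasseySet p N := by
        rw [← map_mul]
        exact hS _
      rw [g2 i j _ (hS σ) hij', g2 i j _ (hS τ) hij', g2 i j _ hST hij',
        ← Fin.map_succEmb_Ioo, Finset.sum_map]
      have h1 : ∑ k ∈ Finset.Ioo i j, g i.succ (Fin.succEmb _ k) (ρ σ) *
          g (Fin.succEmb _ k) j.succ (ρ τ) =
          ∑ k ∈ Finset.Ioo i j, (ρ σ).2.val i k * (ρ τ).2.val k j := by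
        refine Finset.sum_congr rfl fun k hk => ?_
        rw [Finset.mem_Ioo] at hk
        rw [Fin.coe_succEmb, g2 i k _ (hS σ) hk.1, g2 k j _ (hS τ) hk.2]
        ring
      rw [h1, Prod.snd_mul, Units.val_mul, tri_mul _ _ (hS σ).2.1 (hS τ).2.1 hij']
      ring
    · have hi : i ≠ Fin.last (N + 1) := by
        rintro rfl
        exact absurd hij (Fin.le_last _).not_gt
      obtain ⟨i, rfl⟩ := Fin.exists_castSucc_eq.mpr hi
      obtain ⟨j, rfl⟩ := Fin.exists_castSucc_eq.mpr hj
      have hij' : i < j := Fin.castSucc_lt_castSucc_iff.mp hij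
      rw [g1, g1, g1, ← Fin.map_castSuccEmb_Ioo, Finset.sum_map]
      have h1 : ∑ k ∈ Finset.Ioo i j, g i.castSucc (Fin.castSuccEmb k) (ρ σ) *
          g (Fin.castSuccEmb k) j.castSucc (ρ τ) =
          ∑ k ∈ Finset.Ioo i j, (ρ σ).1.val i k * (ρ τ).1.val k j := by
        refine Finset.sum_congr rfl fun k hk => ?_
        rw [Fin.coe_castSuccEmb, g1, g1]
        ring
      rw [h1, Prod.fst_mul, Units.val_mul, tri_mul _ _ (hS σ).1 (hS τ).1 hij']
      ring
  have hne : ∀ i : Fin (N + 1), (i.castSucc, i.succ) ≠ (0, Fin.last (N + 1)) := by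
    intro i h
    rw [Prod.mk.injEq] at h
    have h1 : (i : ℕ) = 0 := congrArg Fin.val h.1
    have h2 : (i : ℕ) + 1 = N + 1 := congrArg Fin.val h.2
    omega
  have hemp : ∀ i : Fin (N + 1), Finset.Ioo i.castSucc i.succ = ∅ := by
    intro i
    ext k
    simp only [Finset.mem_Ioo, Finset.notMem_empty, iff_false, not_and, not_lt]
    intro hk
    have h1 : (i : ℕ) < k := hk
    change (i : ℕ) + 1 ≤ k
    omega
  let φ : Fin (N + 1) → H1 p H := fun i =>
    ⟨fun σ => g i.castSucc i.succ (ρ σ), hgc _ _, by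
      intro σ τ
      have h1 := hrel i.castSucc i.succ Fin.castSucc_lt_succ (hne i) σ τ
      rw [hemp i, Finset.sum_empty, sub_eq_zero] at h1
      exact h1.symm⟩
  refine ⟨φ, ⟨fun i j σ => g i j (ρ σ), fun i j _ _ => hgc i j, fun i => rfl, ?_⟩, ?_⟩
  · intro i j hij hne
    funext σ τ
    simp only [d1, Finset.sum_apply, cup]
    exact hrel i j hij hne σ τ
  · funext σ τ
    simp only [DefiningSystem.value, Finset.sum_apply, cup, bigβ]
    rw [sum_Ioo_zero_last (fun k => g 0 k (ρ σ) * g k (Fin.last (N + 1)) (ρ τ))]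
    refine Finset.sum_congr rfl fun l _ => ?_
    rw [← Fin.succ_last, g2 _ _ _ (hS τ) (Fin.castSucc_lt_last l), Fin.succ_castSucc,
      ← Fin.castSucc_zero, g1]
    ring

/-- If all elements of `n`-fold Massey products have finite symbol length, then their symbol
length is uniformly bounded. -/
theorem massey_forward {p : ℕ} (hp : p.Prime) (n : ℕ) (hn : 2 ≤ n)
    (hfin : ∀ (F : Type u) [Field F], (∃ ζ : F, IsPrimitiveRoot ζ p) →
      ∀ (φ : Fin n → H1 p (GalQ p F)), ∀ α ∈ masseyProduct φ, symbolLength α ≠ ⊤) :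
    ∃ M : ℕ, ∀ (F : Type u) [Field F], (∃ ζ : F, IsPrimitiveRoot ζ p) →
      ∀ (φ : Fin n → H1 p (GalQ p F)), ∀ α ∈ masseyProduct φ, symbolLength α ≤ (M : ℕ∞) := by
  obtain ⟨N, rfl⟩ := Nat.exists_eq_add_of_le' (show 1 ≤ n by omega)
  have hp0 : NeZero p := ⟨hp.ne_zero⟩
  obtain ⟨M, hM⟩ := forward hp (P := BigGroup p N) (bigβ p N) (MasseySet p N) (by
    intro F _ hζ ρ hρ hS h
    obtain ⟨φ, D, hD⟩ := exists_defining_system (by omega) ρ hρ hS
    have h1 := hfin F hζ φ (cls D.value D.value_mem_Z2) ⟨D, rfl⟩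
    obtain ⟨m, hm⟩ := ENat.ne_top_iff_exists.mp h1
    refine ⟨m, ?_⟩
    have h2 := symbolLength_le_iff.mp hm.symm.le
    convert h2 using 2
    exact hD.symm)
  refine ⟨M, fun F _ hζ φ α hα => ?_⟩
  rw [symbolLength_le_iff]
  obtain ⟨D, rfl⟩ := hα
  obtain ⟨ρ, hρ, hS, hD⟩ := exists_pullback D
  have h1 := hM F hζ ρ hρ hS (by rw [← hD]; exact D.value_mem_Z2)
  convert h1 using 2

end Pool.Agent.Helper14.Massey
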