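import Mathlib

/-! # Triangular bases for representations of finite `p`-groups over `ℤ/p` -/

set_option autoImplicit false

namespace Pool.Agent.Helper14.Massey

universe u v

variable {p : ℕ} [hp : Fact p.Prime] {Q : Type u} [Group Q]

/-- a basis of a representation is triangular with ones on the diagonal -/
def IsTriangular {V : Type v} [AddCommGroup V] [Module (ZMod p) V] (ρ : Representation (ZMod p) Q V)
    {n : ℕ} (b : Module.Basis (Fin n) (ZMod p) V) : Prop :=
  ∀ σ i j, j ≤ i → b.repr (ρ σ (b j)) i = if i = j then 1 else 0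

theorem exists_fixed (hQ : IsPGroup p Q) {V : Type v} [AddCommGroup V] [Module (ZMod p) V]
    [Module.Finite (ZMod p) V] (hV : 0 < Module.finrank (ZMod p) V)
    (ρ : Representation (ZMod p) Q V) : ∃ e : V, e ≠ 0 ∧ ∀ σ, ρ σ e = e := by
  have hfin : Finite V := Module.finite_of_finite (ZMod p)
  let act : MulAction Q V :=
    { smul := fun σ x => ρ σ x
      one_smul := by
        intro x
        change ρ 1 x = x
        rw [map_one]
        rfl
      mul_smul := by
        intro σ τ x
        change ρ (σ * τ) x = ρ σ (ρ τ x)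
        rw [map_mul]
        rfl }
  have hcard : p ∣ Nat.card V := by
    rw [Module.natCard_eq_pow_finrank (K := ZMod p), Nat.card_zmod]
    exact dvd_pow_self p hV.ne'
  have h0 : (0 : V) ∈ MulAction.fixedPoints Q V := by
    intro σ
    exact map_zero (ρ σ)
  obtain ⟨e, he, hne⟩ := hQ.exists_fixed_point_of_prime_dvd_card_of_fixed_point V hcard h0
  exact ⟨e, hne.symm, fun σ => he σ⟩

/-- the inductive step: a triangular basis of the quotient by a fixed vector can be lifted -/
theorem exists_triangular_cons {V : Type v} [AddCommGroup V] [Module (ZMod p) V]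
    [Module.Finite (ZMod p) V] {n : ℕ} (hV : Module.finrank (ZMod p) V = n + 1)
    (ρ : Representation (ZMod p) Q V) (e : V) (he : e ≠ 0) (hfix : ∀ σ, ρ σ e = e)
    (hstep : ∀ ρ' : Representation (ZMod p) Q (V ⧸ Submodule.span (ZMod p) {e}),
      ∃ w : Module.Basis (Fin n) (ZMod p) (V ⧸ Submodule.span (ZMod p) {e}), IsTriangular ρ' w) :
    ∃ b : Module.Basis (Fin (n + 1)) (ZMod p) V, b 0 = e ∧ IsTriangular ρ b := by
  set W := Submodule.span (ZMod p) {e} with hW
  have hle : ∀ g, W ≤ W.comap (ρ g) := by
    intro g
    rw [hW, Submodule.span_le, Set.singleton_subset_iff]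
    change ρ g e ∈ Submodule.span (ZMod p) {e}
    rw [hfix g]
    exact Submodule.mem_span_singleton_self e
  obtain ⟨w, hw⟩ := hstep (ρ.quotient W hle)
  choose v hv using fun j => Submodule.mkQ_surjective W (w j)
  have hvw : (W.mkQ ∘ v) = w := funext hv
  have hlin : LinearIndependent (ZMod p) v := by
    apply LinearIndependent.of_comp W.mkQ
    rw [hvw]
    exact w.linearIndependent
  have hnot : e ∉ Submodule.span (ZMod p) (Set.range v) := by
    intro h
    rw [Submodule.mem_span_range_iff_exists_fun] at h
    obtain ⟨c, hc⟩ := h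
    have h1 : W.mkQ e = 0 := by
      rw [Submodule.mkQ_apply, Submodule.Quotient.mk_eq_zero]
      exact Submodule.mem_span_singleton_self e
    rw [← hc, map_sum] at h1
    simp only [map_smul, hv] at h1
    have h2 := Fintype.linearIndependent_iff.mp w.linearIndependent c h1
    apply he
    rw [← hc]
    exact Finset.sum_eq_zero fun i _ => by rw [h2 i, zero_smul]
  have hlin2 : LinearIndependent (ZMod p) (Fin.cons e v : Fin (n + 1) → V) :=
    linearIndependent_finCons.mpr ⟨hlin, hnot⟩
  let b := basisOfLinearIndependentOfCardEqFinrank hlin2 (by rw [Fintype.card_fin, hV])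
  have hb : ∀ j, b j = (Fin.cons e v : Fin (n + 1) → V) j := fun j =>
    congrFun (coe_basisOfLinearIndependentOfCardEqFinrank _ _) j
  have hb0 : b 0 = e := by rw [hb, Fin.cons_zero]
  have hbs : ∀ j, b (Fin.succ j) = v j := fun j => by rw [hb, Fin.cons_succ]
  have hrepr : ∀ x i, w.repr (W.mkQ x) i = b.repr x i.succ := by
    intro x i
    have h1 : W.mkQ x = ∑ j, b.repr x j.succ • w j := by
      conv_lhs => rw [← b.sum_repr x]
      rw [Fin.sum_univ_succ, map_add, map_sum]
      simp only [map_smul, hb0, hbs, hv]
      have h2 : W.mkQ e = 0 := by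
        rw [Submodule.mkQ_apply, Submodule.Quotient.mk_eq_zero]
        exact Submodule.mem_span_singleton_self e
      rw [h2, smul_zero, zero_add]
    rw [h1, map_sum, Finsupp.finsetSum_apply]
    simp only [map_smul, Module.Basis.repr_self, Finsupp.smul_apply, Finsupp.single_apply,
      smul_eq_mul, mul_ite, mul_one, mul_zero]
    rw [Finset.sum_ite_eq' Finset.univ i, if_pos (Finset.mem_univ _)]
  refine ⟨b, hb0, ?_⟩
  intro σ i j hij
  induction j using Fin.cases with
  | zero =>
    rw [hb0, hfix, ← hb0, Module.Basis.repr_self, Finsupp.single_apply]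
    simp only [eq_comm]
  | succ j =>
    induction i using Fin.cases with
    | zero => exact absurd hij (by simp)
    | succ i =>
      rw [← hrepr]
      have h1 : W.mkQ (ρ σ (b j.succ)) = ρ.quotient W hle σ (w j) := by
        rw [hbs, ← hv j]
        rfl
      rw [h1, hw σ i j (Fin.succ_le_succ_iff.mp hij)]
      simp only [Fin.succ_inj]

theorem exists_triangular (hQ : IsPGroup p Q) (n : ℕ) : ∀ (V : Type v) [AddCommGroup V]
    [Module (ZMod p) V] [Module.Finite (ZMod p) V], Module.finrank (ZMod p) V = n →
    ∀ ρ : Representation (ZMod p) Q V,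
      ∃ b : Module.Basis (Fin n) (ZMod p) V, IsTriangular ρ b := by
  induction n with
  | zero =>
    intro V _ _ _ hV ρ
    refine ⟨Module.finBasisOfFinrankEq (ZMod p) V hV, ?_⟩
    intro σ i
    exact i.elim0
  | succ n ih =>
    intro V _ _ _ hV ρ
    obtain ⟨e, he, hfix⟩ := exists_fixed hQ (by omega) ρ
    obtain ⟨b, _, hb⟩ := exists_triangular_cons hV ρ e he hfix (by
      intro ρ'
      apply ih
      have h1 := Submodule.finrank_quotient_add_finrank (Submodule.span (ZMod p) {e})
      rw [finrank_span_singleton he, hV] at h1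
      omega)
    exact ⟨b, hb⟩

/-- a triangular basis starting with a given nonzero fixed vector -/
theorem exists_triangular_first (hQ : IsPGroup p Q) (n : ℕ) (V : Type v) [AddCommGroup V]
    [Module (ZMod p) V] [Module.Finite (ZMod p) V] (hV : Module.finrank (ZMod p) V = n + 1)
    (ρ : Representation (ZMod p) Q V) (e : V) (he : e ≠ 0) (hfix : ∀ σ, ρ σ e = e) :
    ∃ b : Module.Basis (Fin (n + 1)) (ZMod p) V, b 0 = e ∧ IsTriangular ρ b := by
  apply exists_triangular_cons hV ρ e he hfix
  intro ρ'
  apply exists_triangular hQ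
  have h1 := Submodule.finrank_quotient_add_finrank (Submodule.span (ZMod p) {e})
  rw [finrank_span_singleton he, hV] at h1
  omega

end Pool.Agent.Helper14.Massey
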