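import Mathlib
import Pool.Agent.Helper14.Massey.Triangular
import Pool.Agent.Helper14.Massey.Symbol

/-! # Every class inflated from a finite `p`-group is an element of a Massey product -/

set_option autoImplicit false

namespace Pool.Agent.Helper14.Massey

universe u v

section Algebra

/-- the right regular representation on functions -/
def regRep (p : ℕ) (Q : Type v) [Group Q] : Representation (ZMod p) Q (Q → ZMod p) where
  toFun σ :=
    { toFun := fun φ x => φ (x * σ)
      map_add' := fun _ _ => rfl
      map_smul' := fun _ _ => rfl }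
  map_one' := by
    ext φ x
    simp
  map_mul' σ τ := by
    ext φ x
    simp [mul_assoc]

theorem regRep_apply {p : ℕ} {Q : Type v} [Group Q] (σ x : Q) (φ : Q → ZMod p) : regRep p Q σ φ x = φ (x * σ) := rfl

/-- the triangular family attached to matrices `A` and columns `C` -/
def famA {p : ℕ} {Q : Type v} {N : ℕ} (A : Q → Fin (N + 1) → Fin (N + 1) → ZMod p) (C : Q → Fin (N + 1) → ZMod p)
    (i j : Fin (N + 2)) (σ : Q) : ZMod p :=
  Fin.lastCases (motive := fun _ => ZMod p) 0
    (fun i' => Fin.lastCases (motive := fun _ => ZMod p) (- C σ i') (fun j' => - A σ i' j') j) i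

theorem famA_castSucc {p : ℕ} {Q : Type v} {N : ℕ} (A : Q → Fin (N + 1) → Fin (N + 1) → ZMod p)
    (C : Q → Fin (N + 1) → ZMod p) (i j : Fin (N + 1)) (σ : Q) :
    famA A C i.castSucc j.castSucc σ = - A σ i j := by
  simp [famA]

theorem famA_last {p : ℕ} {Q : Type v} {N : ℕ} (A : Q → Fin (N + 1) → Fin (N + 1) → ZMod p)
    (C : Q → Fin (N + 1) → ZMod p) (i : Fin (N + 1)) (σ : Q) :
    famA A C i.castSucc (Fin.last (N + 1)) σ = - C σ i := by
  simp [famA]

variable {p : ℕ} [hp : Fact p.Prime] {Q : Type v} [Group Q] [Finite Q]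

/-- A 2-cocycle of a finite `p`-group with `N + 1` elements is, up to a coboundary, the value of a
triangular family of length `N + 1`. -/
theorem exists_family (hQ : IsPGroup p Q) {N : ℕ} (hN : Nat.card Q = N + 1)
    (f : Q → Q → ZMod p) (hf : ∀ σ τ υ, f τ υ - f (σ * τ) υ + f σ (τ * υ) - f σ τ = 0) :
    ∃ (a : Fin (N + 2) → Fin (N + 2) → Q → ZMod p) (c : Q → ZMod p),
      (∀ i j, i < j → (i, j) ≠ (0, Fin.last (N + 1)) → ∀ σ τ,
        a i j σ + a i j τ - a i j (σ * τ) = ∑ k ∈ Finset.Ioo i j, a i k σ * a k j τ) ∧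
      ∀ σ τ, f σ τ = ∑ k ∈ Finset.Ioo 0 (Fin.last (N + 1)), a 0 k σ * a k (Fin.last (N + 1)) τ +
        (c σ + c τ - c (σ * τ)) := by
  classical
  have hQf : Fintype Q := Fintype.ofFinite Q
  have hrank : Module.finrank (ZMod p) (Q → ZMod p) = N + 1 := by
    rw [Module.finrank_fintype_fun_eq_card, ← Nat.card_eq_fintype_card, hN]
  obtain ⟨b, hb0, hb⟩ := exists_triangular_first hQ N (Q → ZMod p) hrank (regRep p Q) 1
    one_ne_zero (fun σ => rfl)
  let A : Q → Fin (N + 1) → Fin (N + 1) → ZMod p := fun σ i j => b.repr (regRep p Q σ (b j)) i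
  let C : Q → Fin (N + 1) → ZMod p := fun σ i => b.repr (fun x => f x σ) i
  have hA : ∀ σ i j, j ≤ i → A σ i j = if i = j then 1 else 0 := hb
  -- coordinates of the action
  have hact : ∀ σ (x : Q → ZMod p) i, b.repr (regRep p Q σ x) i = ∑ k, A σ i k * b.repr x k := by
    intro σ x i
    conv_lhs => rw [← b.sum_repr x]
    rw [map_sum, map_sum, Finsupp.finsetSum_apply]
    refine Finset.sum_congr rfl fun k _ => ?_
    rw [map_smul, map_smul, Finsupp.smul_apply, smul_eq_mul, mul_comm]
  have hAmul : ∀ σ τ i j, A (σ * τ) i j = ∑ k, A σ i k * A τ k j := by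
    intro σ τ i j
    have h1 : regRep p Q (σ * τ) (b j) = regRep p Q σ (regRep p Q τ (b j)) := by
      rw [map_mul]
      rfl
    simp only [A]
    rw [h1, hact]
  have hCmul : ∀ σ τ i, C (σ * τ) i + f σ τ * (if i = 0 then 1 else 0) =
      ∑ k, A σ i k * C τ k + C σ i := by
    intro σ τ i
    have h1 : (fun x => f x (σ * τ)) + f σ τ • (1 : Q → ZMod p) =
        regRep p Q σ (fun x => f x τ) + fun x => f x σ := by
      funext x
      simp only [Pi.add_apply, Pi.smul_apply, Pi.one_apply, smul_eq_mul, mul_one, regRep_apply]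
      linear_combination hf x σ τ
    have h2 := congrArg (fun y => b.repr y i) h1
    simp only [map_add, map_smul, Finsupp.add_apply, Finsupp.smul_apply, hact] at h2
    rw [← hb0, Module.Basis.repr_self, Finsupp.single_apply, smul_eq_mul] at h2
    simp only [C]
    rw [← h2]
    simp only [eq_comm]
  -- splitting off the triangular part of a sum
  have hsplit : ∀ σ i (g : Fin (N + 1) → ZMod p),
      ∑ k, A σ i k * g k = g i + ∑ k ∈ Finset.Ioi i, A σ i k * g k := by
    intro σ i g
    have h1 : ∀ k, A σ i k * g k = (if k = i then g i else 0) +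
        (if k ∈ Finset.Ioi i then A σ i k * g k else 0) := by
      intro k
      simp only [Finset.mem_Ioi]
      rcases lt_trichotomy i k with h | rfl | h
      · simp [h, h.ne']
      · simp [hA]
      · simp [hA σ i k h.le, h.ne, h.ne', h.not_gt]
    rw [Finset.sum_congr rfl fun k _ => h1 k, Finset.sum_add_distrib,
      Finset.sum_ite_eq' Finset.univ i, if_pos (Finset.mem_univ _), ← Finset.sum_filter,
      Finset.filter_mem_eq_inter, Finset.univ_inter]
  have hsplit2 : ∀ σ τ i j, i < j → ∑ k ∈ Finset.Ioi i, A σ i k * A τ k j =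
      A σ i j + ∑ k ∈ Finset.Ioo i j, A σ i k * A τ k j := by
    intro σ τ i j hij
    have h1 : Finset.Ioi i = Finset.Ioo i j ∪ Finset.Ici j := by
      ext k
      simp only [Finset.mem_Ioi, Finset.mem_union, Finset.mem_Ioo, Finset.mem_Ici]
      constructor
      · intro h
        rcases lt_or_ge k j with h2 | h2
        · exact Or.inl ⟨h, h2⟩
        · exact Or.inr h2
      · rintro (h | h)
        · exact h.1
        · exact hij.trans_le h
    have h2 : Disjoint (Finset.Ioo i j) (Finset.Ici j) := by
      rw [Finset.disjoint_left]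
      intro k h3 h4
      rw [Finset.mem_Ioo] at h3
      rw [Finset.mem_Ici] at h4
      exact absurd h4 h3.2.not_ge
    rw [h1, Finset.sum_union h2, add_comm]
    congr 1
    rw [Finset.sum_eq_single j]
    · rw [hA τ j j le_rfl, if_pos rfl, mul_one]
    · intro k hk hkj
      rw [Finset.mem_Ici] at hk
      rw [hA τ k j hk, if_neg hkj, mul_zero]
    · intro h
      exact absurd (Finset.mem_Ici.mpr le_rfl) h
  refine ⟨famA A C, fun σ => C σ 0, ?_, ?_⟩
  · intro i j hij hne σ τ
    induction i using Fin.lastCases with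
    | last => exact absurd hij (Fin.le_last j).not_gt
    | cast i =>
      induction j using Fin.lastCases with
      | last =>
        have hi0 : i ≠ 0 := by
          rintro rfl
          exact hne rfl
        rw [← Fin.map_castSuccEmb_Ioi, Finset.sum_map]
        simp only [Fin.coe_castSuccEmb, famA_castSucc, famA_last]
        have h1 := hCmul σ τ i
        rw [if_neg hi0, mul_zero, add_zero, hsplit] at h1
        rw [h1]
        simp only [neg_mul_neg]
        ring
      | cast j =>
        have hij' : i < j := Fin.castSucc_lt_castSucc_iff.mp hij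
        rw [← Fin.map_castSuccEmb_Ioo, Finset.sum_map]
        simp only [Fin.coe_castSuccEmb, famA_castSucc]
        have h1 := hAmul σ τ i j
        rw [hsplit, hsplit2 σ τ i j hij'] at h1
        rw [h1]
        simp only [neg_mul_neg]
        ring
  · intro σ τ
    have h0 : (0 : Fin (N + 2)) = (0 : Fin (N + 1)).castSucc := rfl
    rw [h0, ← Fin.map_castSuccEmb_Ioi, Finset.sum_map]
    simp only [Fin.coe_castSuccEmb, famA_castSucc, famA_last]
    have h1 := hCmul σ τ 0
    rw [if_pos rfl, mul_one, hsplit] at h1
    simp only [neg_mul_neg]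
    linear_combination h1

end Algebra

end Pool.Agent.Helper14.Massey
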