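import Mathlib
import Pool.Agent.Helper14.Massey.Realize
import Pool.Agent.Helper14.Massey.Pullback

/-! # Every 2-class of a pro-`p` group is zero or lies in a Massey product -/

set_option autoImplicit false

namespace Pool.Agent.Helper14.Massey

universe u v

open Topology

/-- the inflation of a 2-cocycle of a finite `p`-group with `N + 1` elements, `N ≥ 1`, lies in an
`(N + 1)`-fold Massey product; for `N = 0` it is zero. -/
theorem exists_mem_massey {p : ℕ} [hp : Fact p.Prime] {H : Type u} [Group H] [TopologicalSpace H]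
    {Q : Type v} [Group Q] [Finite Q] (hQ : IsPGroup p Q) {N : ℕ} (hN : Nat.card Q = N + 1)
    (π : H →* Q) (hπ : IsLocallyConstant π) (f' : Q → Q → ZMod p)
    (hf' : ∀ σ τ υ, f' τ υ - f' (σ * τ) υ + f' σ (τ * υ) - f' σ τ = 0)
    {f : H → H → ZMod p} (hf : f ∈ Z2 p H) (hff : ∀ σ τ, f σ τ = f' (π σ) (π τ)) :
    (1 ≤ N → ∃ φ : Fin (N + 1) → H1 p H, cls f hf ∈ masseyProduct φ) ∧
      (N = 0 → IsSumCup 0 (cls f hf)) := by
  obtain ⟨a, c, hrel, hval⟩ := exists_family hQ hN f' hf'
  constructor
  · intro hN1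
    have hne : ∀ i : Fin (N + 1), (i.castSucc, i.succ) ≠ (0, Fin.last (N + 1)) := by
      intro i h
      rw [Prod.mk.injEq] at h
      have h1 : (i : ℕ) = 0 := congrArg Fin.val h.1
      have h2 : (i : ℕ) + 1 = N + 1 := congrArg Fin.val h.2
      omega
    have hemp : ∀ i : Fin (N + 1), Finset.Ioo i.castSucc i.succ = ∅ := by
      intro i
      ext k
      simp only [Finset.mem_Ioo, Finset.notMem_empty, iff_false, not_and, not_lt]
      intro hk
      have h1 : (i : ℕ) < k := hk
      change (i : ℕ) + 1 ≤ k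
      omega
    have hadd : ∀ (i : Fin (N + 1)) σ τ, a i.castSucc i.succ (σ * τ) =
        a i.castSucc i.succ σ + a i.castSucc i.succ τ := by
      intro i σ τ
      have h1 := hrel i.castSucc i.succ Fin.castSucc_lt_succ (hne i) σ τ
      rw [hemp i, Finset.sum_empty, sub_eq_zero] at h1
      exact h1.symm
    let φ : Fin (N + 1) → H1 p H := fun i =>
      ⟨fun σ => a i.castSucc i.succ (π σ), (hπ.comp (a i.castSucc i.succ)).continuous, by
        intro σ τ
        change a i.castSucc i.succ (π (σ * τ)) = _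
        rw [map_mul, hadd]⟩
    let D : DefiningSystem φ :=
      { a := fun i j σ => a i j (π σ)
        continuous := fun i j _ _ => (hπ.comp (a i j)).continuous
        diag := fun i => rfl
        rel := by
          intro i j hij hne
          funext σ τ
          simp only [d1, Finset.sum_apply, cup, map_mul]
          exact hrel i j hij hne (π σ) (π τ) }
    refine ⟨φ, D, ?_⟩
    rw [cls_eq_iff]
    refine ⟨fun σ => c (π σ), (hπ.comp c).continuous, ?_⟩
    funext σ τ
    simp only [Pi.sub_apply, DefiningSystem.value, Finset.sum_apply, cup, d1, D, map_mul]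
    rw [hff, hval]
    ring
  · rintro rfl
    apply isSumCup_of_hom π hπ hf Fin.elim0 Fin.elim0 c (fun i => i.elim0) (fun i => i.elim0)
    intro σ τ
    rw [hff, hval]
    congr 1

/-- every 2-class of the maximal pro-`p` quotient of a compact group is a sum of at most zero cup
products or lies in a Massey product of length at least two -/
theorem exists_massey_of_class {p : ℕ} (hp : p.Prime) {G : Type u} [Group G] [TopologicalSpace G]
    [IsTopologicalGroup G] [CompactSpace G] (α : H2 p (MaxProP p G)) :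
    IsSumCup 0 α ∨ ∃ n, 2 ≤ n ∧ ∃ φ : Fin n → H1 p (MaxProP p G), α ∈ masseyProduct φ := by
  have hpf : Fact p.Prime := ⟨hp⟩
  obtain ⟨f, hf, rfl⟩ := exists_cls α
  have hlc : IsLocallyConstant fun x : MaxProP p G × MaxProP p G => f x.1 x.2 :=
    (IsLocallyConstant.iff_continuous _).mpr hf.1
  obtain ⟨N, hNP, hN⟩ := exists_factor₂ hp hlc
  have hNn : N.Normal := hNP.1
  obtain ⟨k, hk⟩ := hNP.2.2
  let Q : Type u := G ⧸ N
  have hNfi : N.FiniteIndex := ⟨by rw [hk]; exact pow_ne_zero _ hp.ne_zero⟩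
  have hQfin : Finite Q := Subgroup.finite_quotient_of_finiteIndex
  have hQcard : Nat.card Q = p ^ k := hk
  have hQ : IsPGroup p Q := IsPGroup.of_card hQcard
  have hker : (QuotientGroup.mk' N).ker ∈ POpen p G := by
    rw [QuotientGroup.ker_mk']
    exact hNP
  obtain ⟨π, hπlc, hπ⟩ := exists_descend (QuotientGroup.mk' N) hker
  have hsurj : Function.Surjective (QuotientGroup.mk' N) := QuotientGroup.mk'_surjective N
  let s : Q → G := Function.surjInv hsurj
  let f' : Q → Q → ZMod p := fun x y => f (s x : MaxProP p G) (s y : MaxProP p G)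
  have hf' : ∀ g h : G, f' (QuotientGroup.mk' N g) (QuotientGroup.mk' N h) =
      f (g : MaxProP p G) (h : MaxProP p G) := by
    intro g h
    apply hN
    · exact QuotientGroup.eq.mp (Function.surjInv_eq hsurj (QuotientGroup.mk' N g))
    · exact QuotientGroup.eq.mp (Function.surjInv_eq hsurj (QuotientGroup.mk' N h))
  have hcoc : ∀ σ τ υ, f' τ υ - f' (σ * τ) υ + f' σ (τ * υ) - f' σ τ = 0 := by
    intro σ τ υ
    obtain ⟨σ, rfl⟩ := hsurj σ
    obtain ⟨τ, rfl⟩ := hsurj τ
    obtain ⟨υ, rfl⟩ := hsurj υ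
    rw [← map_mul, ← map_mul, hf', hf', hf', hf', QuotientGroup.mk_mul, QuotientGroup.mk_mul]
    exact hf.2 _ _ _
  have hff : ∀ σ τ, f σ τ = f' (π σ) (π τ) := by
    intro σ τ
    obtain ⟨σ, rfl⟩ := QuotientGroup.mk_surjective σ
    obtain ⟨τ, rfl⟩ := QuotientGroup.mk_surjective τ
    rw [hπ, hπ, hf']
  have hpos : 0 < Nat.card Q := Nat.card_pos
  obtain ⟨n, hn⟩ := Nat.exists_eq_add_of_le' hpos
  obtain ⟨h1, h2⟩ := exists_mem_massey hQ hn π hπlc f' hcoc hf hff
  rcases Nat.eq_zero_or_pos n with h3 | h3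
  · exact Or.inl (h2 h3)
  · obtain ⟨φ, hφ⟩ := h1 h3
    exact Or.inr ⟨n + 1, by omega, φ, hφ⟩

/-- If all elements of Massey products of length at least two have finite symbol length, then all
classes in `H²(G_F(p), ℤ/p)` have finite symbol length. -/
theorem massey_backward {p : ℕ} (hp : p.Prime)
    (h : ∀ n, 2 ≤ n → ∀ (F : Type u) [Field F], (∃ ζ : F, IsPrimitiveRoot ζ p) →
      ∀ (φ : Fin n → H1 p (GalQ p F)), ∀ α ∈ masseyProduct φ, symbolLength α ≠ ⊤)
    (F : Type u) [Field F] (hζ : ∃ ζ : F, IsPrimitiveRoot ζ p) (α : H2 p (GalQ p F)) :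
    symbolLength α ≠ ⊤ := by
  rcases exists_massey_of_class hp (G := Gal(SeparableClosure F/F)) α with h1 | ⟨n, hn, φ, hφ⟩
  · have h2 := symbolLength_le_iff.mpr h1
    exact (h2.trans_lt (WithTop.coe_lt_top 0)).ne
  · exact h n hn F hζ φ α hφ

end Pool.Agent.Helper14.Massey
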